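import Pool.Agent.Lib.D6.Defs

/-!
# Algebra of points, steps and states
-/

set_option autoImplicit false

namespace Pool.Agent.D6

theorem Box.y1 {P : Pt} (h : Box P) : 1 ≤ P.y := by have := h.hx; have := h.h2; omega
theorem Box.z1 {P : Pt} (h : Box P) : 1 ≤ P.z := by have := h.y1; have := h.h4; omega

/-- `Q = P M` with `M = P⁻¹ Q`. -/
theorem x_eq {P : Pt} (h : Box P) (Q : Pt) : Q.x = P.x * al P Q + P.y * ga P Q := by
  have := h.hq
  unfold al ga
  linear_combination (-Q.x) * this

theorem y_eq {P : Pt} (h : Box P) (Q : Pt) : Q.y = P.y * al P Q + P.z * ga P Q := by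
  have := h.hq
  unfold al ga
  linear_combination (-Q.y) * this

theorem y_eq' {P : Pt} (h : Box P) (Q : Pt) : Q.y = P.x * be P Q + P.y * de P Q := by
  have := h.hq
  unfold be de
  linear_combination (-Q.y) * this

theorem z_eq {P : Pt} (h : Box P) (Q : Pt) : Q.z = P.y * be P Q + P.z * de P Q := by
  have := h.hq
  unfold be de
  linear_combination (-Q.z) * this

theorem box_of_good {P Q : Pt} (h : Box P) (g : Good P Q) (hq : Q.x * Q.z - Q.y ^ 2 = 1) : Box Q := by
  have e1 := x_eq h Q
  have e2 := y_eq h Q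
  have e3 := y_eq' h Q
  have e4 := z_eq h Q
  have hx := h.hx
  have h1 := h.h1
  have h2 := h.h2
  have h3 := h.h3
  have h4 := h.h4
  have ga := g.ha
  have gb := g.hb
  have gc := g.hc
  have gd := g.hd
  have hy := h.y1
  have hz := h.z1
  refine ⟨?_, ?_, ?_, ?_, ?_, hq⟩
  · nlinarith
  · nlinarith
  · nlinarith
  · nlinarith
  · nlinarith

theorem q_step {P Q : Pt} (hP : Box P) (hQ : Box Q) :
    (step P Q).x * (step P Q).z - (step P Q).y ^ 2 = 1 := by
  have h1 := hP.hq
  have h2 := hQ.hq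
  simp only [step, br]
  linear_combination (P.x * Q.z - 2 * P.y * Q.y + P.z * Q.x) ^ 2 * h1 + h2

theorem al_step {P Q : Pt} (hP : Box P) : al P (step P Q) = al Q P := by
  have h1 := hP.hq
  simp only [al, step, br]
  linear_combination (P.x * Q.z - 2 * P.y * Q.y + P.z * Q.x) * h1

theorem be_step {P Q : Pt} : be P (step P Q) = be Q P := by
  simp only [be, step, br]
  ring

theorem ga_step {P Q : Pt} : ga P (step P Q) = ga Q P := by
  simp only [ga, step, br]
  ring

theorem de_step {P Q : Pt} (hP : Box P) : de P (step P Q) = de Q P := by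
  have h1 := hP.hq
  simp only [de, step, br]
  linear_combination (P.x * Q.z - 2 * P.y * Q.y + P.z * Q.x) * h1

theorem good_step {P Q : Pt} (hP : Box P) (g : Good Q P) : Good P (step P Q) := by
  refine ⟨?_, ?_, ?_, ?_, ?_, ?_⟩
  · rw [al_step hP]; exact g.ha
  · rw [be_step]; exact g.hb
  · rw [ga_step]; exact g.hc
  · rw [de_step hP]; exact g.hd
  · rw [al_step hP, ga_step]; exact g.h1
  · rw [be_step, de_step hP]; exact g.h2

theorem box_step {P Q : Pt} (hP : Box P) (hQ : Box Q) (g : Good Q P) : Box (step P Q) :=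
  box_of_good hP (good_step hP g) (q_step hP hQ)

theorem good_trans {P Q R : Pt} (hQ : Box Q) (g : Good P Q) (g' : Good Q R) : Good P R := by
  have h := hQ.hq
  have ea : al P R = al P Q * al Q R + be P Q * ga Q R := by
    unfold al be ga; linear_combination (-(P.z * R.x - P.y * R.y)) * h
  have eb : be P R = al P Q * be Q R + be P Q * de Q R := by
    unfold al be de; linear_combination (-(P.z * R.y - P.y * R.z)) * h
  have ec : ga P R = ga P Q * al Q R + de P Q * ga Q R := by
    unfold al ga de; linear_combination (-(P.x * R.y - P.y * R.x)) * h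
  have ed : de P R = ga P Q * be Q R + de P Q * de Q R := by
    unfold be ga de; linear_combination (-(P.x * R.z - P.y * R.y)) * h
  obtain ⟨a1, b1, c1, d1, k1, l1⟩ := g
  obtain ⟨a2, b2, c2, d2, k2, l2⟩ := g'
  refine ⟨?_, ?_, ?_, ?_, ?_, ?_⟩
  · rw [ea]; nlinarith
  · rw [eb]; nlinarith
  · rw [ec]; nlinarith
  · rw [ed]; nlinarith
  · rw [ea, ec]; nlinarith
  · rw [eb, ed]; nlinarith

theorem det_step (P Q R : Pt) : det3 P (step P Q) R = det3 Q P R := by
  simp only [det3, step, br]
  ring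

theorem Inv.bv {t : St} (h : Inv t) : Box t.v := box_step h.bu h.bz h.gz
theorem Inv.gv {t : St} (h : Inv t) : Good t.u t.v := good_step h.bu h.gz
theorem Inv.gWv {t : St} (h : Inv t) : Good t.W t.v := good_trans h.bu h.gW h.gv
theorem Inv.gzv {t : St} (h : Inv t) : Good t.z t.v := good_trans h.bu h.gz h.gv
theorem Inv.bX {t : St} (h : Inv t) : Box (step t.v t.W) := box_step h.bv h.bW h.gWv
theorem Inv.gX {t : St} (h : Inv t) : Good t.v (step t.v t.W) := good_step h.bv h.gWv

theorem det_J (t : St) : det3 t.W t.v t.u = - det3 t.z t.u t.W := by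
  simp only [St.v, det3, step, br]
  ring

theorem det_K (t : St) : det3 t.z (step t.v t.W) t.u = det3 t.z t.u t.W := by
  have h1 : det3 t.z t.v t.u = 0 := by
    simp only [St.v, det3, step, br]
    ring
  have h2 : det3 t.z (step t.v t.W) t.u = br t.v t.W * det3 t.z t.v t.u - det3 t.z t.W t.u := by
    simp only [det3, step]
    ring
  rw [h2, h1]
  simp only [det3]
  ring

theorem inv_ap (o : Op) {t : St} (h : Inv t) : Inv (ap o t) := by
  cases o with
  | A =>
    refine ⟨h.bv, h.bu, h.bW, h.gv, h.gWv, ?_⟩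
    have e : det3 t.u t.v t.W = det3 t.z t.u t.W := det_step _ _ _
    simp only [ap]
    rw [e]; exact h.hd
  | J =>
    refine ⟨h.bv, h.bW, h.bu, h.gWv, h.gv, ?_⟩
    simp only [ap]
    rw [det_J, neg_sq]; exact h.hd
  | K =>
    refine ⟨h.bX, h.bz, h.bu, good_trans h.bv h.gzv h.gX, good_trans h.bv h.gv h.gX, ?_⟩
    simp only [ap]
    rw [det_K]; exact h.hd

/-- Sizes grow. -/
theorem good_lt {P Q : Pt} (h : Box P) (g : Good P Q) : 3 * P.x ≤ 2 * Q.x := by
  have e := x_eq h Q
  have h2 := h.h2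
  have hx := h.hx
  have ga := g.ha
  have gc := g.hc
  nlinarith

/-- `Q.x ≤ 3 P.x ga`. -/
theorem x_le_ga {P Q : Pt} (h : Box P) (g : Good P Q) : Q.x ≤ 3 * (P.x * ga P Q) := by
  have e := x_eq h Q
  have h1 := h.h1
  have hx := h.hx
  have gc := g.hc
  have k := g.h1
  nlinarith

/-- `P.x ga ≤ 2 Q.x`. -/
theorem ga_le_x {P Q : Pt} (h : Box P) (g : Good P Q) : P.x * ga P Q ≤ 2 * Q.x := by
  have e := x_eq h Q
  have h2 := h.h2
  have hx := h.hx
  have gc := g.hc
  have gaa := g.ha
  nlinarith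

/-- The size of a step. -/
theorem step_size {P Q : Pt} (hP : Box P) (hQ : Box Q) (g : Good Q P) :
    P.x ^ 2 ≤ Q.x * (step P Q).x ∧ Q.x * (step P Q).x ≤ 2 * P.x ^ 2 := by
  have e : Q.x * (step P Q).x = P.x ^ 2 + (ga Q P) ^ 2 := by
    have h1 := hP.hq
    have h2 := hQ.hq
    simp only [step, br, ga]
    linear_combination (Q.x ^ 2) * h1 + (P.x ^ 2) * h2
  have h3 := ga_le_x hQ g
  have h4 := g.hc
  have h5 := hQ.hx
  have h6 : ga Q P ≤ P.x := by nlinarith
  have h7 := hP.hx
  rw [e]
  constructor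
  · nlinarith
  · nlinarith

end Pool.Agent.D6
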