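import Pool.Agent.Lib.D6.Run

/-!
# From blocks to paths
-/

set_option autoImplicit false

open Filter Topology

namespace Pool.Agent.D6

/-- Block and offset. -/
def pm (d : ℕ → ℕ) : ℕ → ℕ × ℕ
  | 0 => (0, 0)
  | n + 1 => if (pm d n).2 < d (pm d n).1 then ((pm d n).1, (pm d n).2 + 1) else ((pm d n).1 + 1, 0)

/-- The path. -/
def pth (d : ℕ → ℕ) (s : St) (n : ℕ) : St := rn (blk d s (pm d n).1) (pm d n).2

/-- The moves of the path. -/
def pop (d : ℕ → ℕ) (n : ℕ) : Op := if (pm d n).2 < d (pm d n).1 then Op.A else Op.K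

theorem pm_le (d : ℕ → ℕ) (n : ℕ) : (pm d n).2 ≤ d (pm d n).1 := by
  induction n with
  | zero => exact Nat.zero_le _
  | succ n ih =>
    rw [pm]
    split_ifs with h
    · exact h
    · exact Nat.zero_le _

theorem path_pth (d : ℕ → ℕ) {s : St} (h : Inv s) : Path (pth d s) (pop d) := by
  refine ⟨h, fun n => ?_⟩
  have hle := pm_le d n
  unfold pth pop
  rw [pm]
  split_ifs with h1
  · simp only
    rw [rn_succ]
  · simp only [rn_zero]
    have h2 : (pm d n).2 = d (pm d n).1 := by omega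
    rw [h2]
    rfl

/-- Inside a block. -/
theorem pm_off (d : ℕ → ℕ) (n i : ℕ) (h : pm d n = (i, 0)) (j : ℕ) (hj : j ≤ d i) :
    pm d (n + j) = (i, j) := by
  induction j with
  | zero => exact h
  | succ j ih =>
    have h1 := ih (by omega)
    rw [← add_assoc, pm, h1]
    simp only
    rw [if_pos (by omega)]

theorem pm_hit (d : ℕ → ℕ) (i : ℕ) : ∃ n, i ≤ n ∧ pm d n = (i, 0) := by
  induction i with
  | zero => exact ⟨0, le_rfl, rfl⟩
  | succ i ih =>
    obtain ⟨n, h1, h2⟩ := ih
    have h3 := pm_off d n i h2 (d i) le_rfl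
    refine ⟨n + d i + 1, by omega, ?_⟩
    rw [pm, h3]
    simp

theorem pm_mono (d : ℕ → ℕ) : Monotone fun n => (pm d n).1 := by
  apply monotone_nat_of_le_succ
  intro n
  rw [pm]
  split_ifs
  · exact le_rfl
  · exact Nat.le_succ _

theorem pm_top (d : ℕ → ℕ) : Tendsto (fun n => (pm d n).1) atTop atTop := by
  apply tendsto_atTop_atTop_of_monotone (pm_mono d)
  intro i
  obtain ⟨n, _, h⟩ := pm_hit d i
  exact ⟨n, by rw [h]⟩

/-- The size conditions of the path from those of the blocks. -/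
theorem lim_pth {d : ℕ → ℕ} {s : St} {Λ : ℝ} (h : Inv s) (h0 : lg s.z ≤ lg s.W) (hd : ∀ i, d i ≤ 23) (hΛ : 37 ≤ Λ)
    (t1 : ∀ ε : ℝ, 0 < ε → ∀ᶠ i in atTop,
      lg (blk d s i).u - lg (blk d s i).z ≤ (Λ - 1 + ε) * lg (blk d s i).z)
    (t2 : ∀ᶠ i in atTop, lg (rn (blk d s i) (d i)).v ≤ 37 * lg (blk d s i).W)
    (t3 : ∀ ε : ℝ, 0 < ε → ∃ᶠ i in atTop,
      (Λ - 1 - ε) * lg (blk d s i).z ≤ lg (blk d s i).u - lg (blk d s i).z) :
    Lim (pth d s) (pop d) Λ := by
  have hp := path_pth d h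
  have hi := fun i => blk_inv (d := d) h i
  refine ⟨?_, ?_, ?_, ?_⟩
  · intro ε hε
    filter_upwards [(pm_top d).eventually (t1 ε hε)] with n hn
    unfold pth
    rcases hj : (pm d n).2 with _ | j
    · rw [rn_zero]
      linarith
    · rw [rn_z, rn_u]
      have a1 := (rn_inv (hi (pm d n).1) j).lv
      have a2 := (rn_inv (hi (pm d n).1) j).bz.lg_lo
      have a3 := (rn_inv (hi (pm d n).1) j).bu.lg_pos
      nlinarith
  · intro ε hε
    filter_upwards [(pm_top d).eventually t2] with n hn hop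
    have hle := pm_le d n
    have h2 : (pm d n).2 = d (pm d n).1 := by
      unfold pop at hop
      split_ifs at hop with h3
      omega
    unfold pth
    rw [h2, rn_W]
    have a3 := (hi (pm d n).1).bW.lg_pos
    nlinarith
  · intro ε hε
    rw [frequently_atTop]
    intro N
    obtain ⟨i, hi1, hi2⟩ := frequently_atTop.1 (t3 ε hε) N
    obtain ⟨n, hn1, hn2⟩ := pm_hit d i
    refine ⟨n, by omega, ?_⟩
    unfold pth
    rw [hn2, rn_zero]
    linarith
  · have hdyn := dyn_blk hd h h0
    refine tendsto_atTop_mono ?_ (hdyn.top.comp (pm_top d))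
    intro n
    exact (gap (hi (pm d n).1) (pm d n).2).1

/-- The blocks depend only on the previous digits. -/
theorem blk_congr {d d' : ℕ → ℕ} (s : St) (i : ℕ) (h : ∀ k, k < i → d k = d' k) :
    blk d s i = blk d' s i := by
  induction i with
  | zero => rfl
  | succ i ih =>
    rw [blk, blk, ih fun k hk => h k (by omega), h i (by omega)]

/-- Two digit sequences, first difference at `i`: `d i < d' i`.  There is a common time with different moves. -/
theorem pm_congr {d d' : ℕ → ℕ} (i : ℕ) (h : ∀ k, k < i → d k = d' k) : 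
    ∃ n, pm d n = (i, 0) ∧ pm d' n = (i, 0) := by
  induction i with
  | zero => exact ⟨0, rfl, rfl⟩
  | succ i ih =>
    obtain ⟨n, h1, h2⟩ := ih fun k hk => h k (by omega)
    have h3 := pm_off d n i h1 (d i) le_rfl
    have h4 := pm_off d' n i h2 (d' i) le_rfl
    have h5 := h i (by omega)
    refine ⟨n + d i + 1, ?_, ?_⟩
    · rw [pm, h3]; simp
    · rw [h5, pm, h4]; simp

end Pool.Agent.D6
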