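import Pool.Agent.Lib.WnF.DDefs

/-!
# Definitions for the spectra of the uniform exponents in degree two (MP_d6cb56)

A point `P = (x, y, z)` stands for the symmetric matrix with rows `(x, y)`, `(y, z)`; we use points with
`x z - y ^ 2 = 1`.  `step P Q = ⟨P, Q⟩ P - Q` is the matrix `P Q⁻¹ P`.  `Good P Q` says that the matrix
`P⁻¹ Q` (entries `al, be, ga, de`) is positive, with `al ≤ 2 ga` and `be ≤ 2 de`.

A state is a triple `(u, z, W)`; the next point is `v = step u z`.  The three moves are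
`A : (v, u, W)`, `J : (v, W, u)`, `K : (step v W, z, u)`.
-/

set_option autoImplicit false

namespace Pool.Agent.D6

/-- Integer points. -/
structure Pt where
  x : ℤ
  y : ℤ
  z : ℤ

/-- The polar form of `2 (x z - y ^ 2)`. -/
def br (P Q : Pt) : ℤ := P.x * Q.z - 2 * P.y * Q.y + P.z * Q.x

/-- The step `⟨P, Q⟩ P - Q`. -/
def step (P Q : Pt) : Pt := ⟨br P Q * P.x - Q.x, br P Q * P.y - Q.y, br P Q * P.z - Q.z⟩

/-- The determinant of three points. -/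
def det3 (P Q R : Pt) : ℤ :=
  P.x * (Q.y * R.z - Q.z * R.y) - P.y * (Q.x * R.z - Q.z * R.x) + P.z * (Q.x * R.y - Q.y * R.x)

def al (P Q : Pt) : ℤ := P.z * Q.x - P.y * Q.y
def be (P Q : Pt) : ℤ := P.z * Q.y - P.y * Q.z
def ga (P Q : Pt) : ℤ := P.x * Q.y - P.y * Q.x
def de (P Q : Pt) : ℤ := P.x * Q.z - P.y * Q.y

/-- Points with `x z - y ^ 2 = 1` and slope interval `[y/x, z/y]` inside `[1/2, 1]`. -/
structure Box (P : Pt) : Prop where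
  hx : 2 ≤ P.x
  h1 : P.y ≤ P.x
  h2 : P.x ≤ 2 * P.y
  h3 : P.z ≤ P.y
  h4 : P.y ≤ 2 * P.z
  hq : P.x * P.z - P.y ^ 2 = 1

/-- The matrix `P⁻¹ Q` is positive and maps the positive quadrant into the cone of slope `≥ 1/2`. -/
structure Good (P Q : Pt) : Prop where
  ha : 1 ≤ al P Q
  hb : 1 ≤ be P Q
  hc : 1 ≤ ga P Q
  hd : 1 ≤ de P Q
  h1 : al P Q ≤ 2 * ga P Q
  h2 : be P Q ≤ 2 * de P Q

/-- States. -/
structure St where
  u : Pt
  z : Pt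
  W : Pt

/-- The next point of a state. -/
def St.v (t : St) : Pt := step t.u t.z

/-- The invariant of states. -/
structure Inv (t : St) : Prop where
  bu : Box t.u
  bz : Box t.z
  bW : Box t.W
  gz : Good t.z t.u
  gW : Good t.W t.u
  hd : det3 t.z t.u t.W ^ 2 = 4

/-- Moves. -/
inductive Op
  | A
  | J
  | K

/-- The effect of a move. -/
def ap : Op → St → St
  | Op.A, t => ⟨t.v, t.u, t.W⟩
  | Op.J, t => ⟨t.v, t.W, t.u⟩
  | Op.K, t => ⟨step t.v t.W, t.z, t.u⟩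

/-- The logarithm of the size of a point. -/
noncomputable def lg (P : Pt) : ℝ := Real.log (P.x : ℝ)

/-- The point `P` is a good approximation to `(1, ξ, ξ²)`. -/
structure App (ξ : ℝ) (P : Pt) : Prop where
  bx : Box P
  lo : 1 / 3 ≤ (P.x : ℝ) * (P.x * ξ - P.y)
  hi : (P.x : ℝ) * (P.x * ξ - P.y) ≤ 2

/-- There are integers `x_0, …, x_n` with `0 < |x_0| ≤ X` and `|x_0 ξ^j - x_j| ≤ X^(-r)`. -/
def SimAp (n : ℕ) (ξ r X : ℝ) : Prop :=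
  ∃ x : Fin (n + 1) → ℤ, x 0 ≠ 0 ∧ |(x 0 : ℝ)| ≤ X ∧
    ∀ j : Fin n, |(x 0 : ℝ) * ξ ^ ((j : ℕ) + 1) - x j.succ| ≤ X ^ (-r)

/-- There are integers `x_0, …, x_n` with `|x_j| ≤ X` and `0 < |x_n ξ^n + … + x_0| ≤ X^(-r)`. -/
def PolAp (n : ℕ) (ξ r X : ℝ) : Prop :=
  ∃ x : Fin (n + 1) → ℤ, (∀ j, |(x j : ℝ)| ≤ X) ∧
    0 < |∑ j : Fin (n + 1), (x j : ℝ) * ξ ^ (j : ℕ)| ∧
    |∑ j : Fin (n + 1), (x j : ℝ) * ξ ^ (j : ℕ)| ≤ X ^ (-r)

/-- The exponent `hat λ_n(ξ)`. -/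
noncomputable def hlam (n : ℕ) (ξ : ℝ) : EReal :=
  sSup {l : EReal | ∃ r : ℝ, l = r ∧ ∃ X₀ : ℝ, ∀ X : ℝ, X₀ ≤ X → SimAp n ξ r X}

/-- The exponent `hat w_n(ξ)`. -/
noncomputable def hwn (n : ℕ) (ξ : ℝ) : EReal :=
  sSup {l : EReal | ∃ r : ℝ, l = r ∧ ∃ X₀ : ℝ, ∀ X : ℝ, X₀ ≤ X → PolAp n ξ r X}

end Pool.Agent.D6
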