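import Pool.Agent.Lib.D6.Game

/-!
# The schedule and the real dynamics: definitions

Forward digits: block `n` emits `p n`, `b n`, `b (n-1)`, …, `b 1`, `b 0` (machine `mach i = (n, j)`, the counter `j` runs from
`n + 1` down to `0`).  `Dyn` is the recursion of the logarithms with bounded errors.
-/

set_option autoImplicit false

open Filter

namespace Pool.Agent.D6

/-- The schedule: block and counter. -/
def mach : ℕ → ℕ × ℕ
  | 0 => (0, 0)
  | i + 1 => if (mach i).2 = 0 then ((mach i).1 + 1, (mach i).1 + 2) else ((mach i).1, (mach i).2 - 1)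

/-- The forward digits. -/
def digit (b p : ℕ → ℕ) (i : ℕ) : ℕ :=
  if (mach i).2 = (mach i).1 + 1 then p (mach i).1 else b (mach i).2

/-- The recursion of the logarithms, with errors at most `E`. -/
structure Dyn (d : ℕ → ℕ) (E : ℝ) (G H Z V : ℕ → ℝ) : Prop where
  g0 : 0 < G 0
  hE : 0 ≤ E
  h0 : ∀ i, 0 ≤ H i
  h1 : ∀ i, H i ≤ G i
  z0 : ∀ i, 0 ≤ Z i
  ga : ∀ i, (d i + 4) * G i - H i ≤ G (i + 1)
  gb : ∀ i, G (i + 1) ≤ (d i + 4) * G i - H i + E
  ha : ∀ i, G i ≤ H (i + 1)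
  hb : ∀ i, H (i + 1) ≤ G i + E
  za : ∀ i, Z i + d i * G i ≤ Z (i + 1)
  zb : ∀ i, Z (i + 1) ≤ Z i + d i * G i + E
  zc : ∀ i, d i = 0 → Z (i + 1) = Z i
  vb : ∀ i, V i ≤ Z i + (d i + 2) * G i + E

variable {E : ℝ} {G H Z V : ℕ → ℝ}

theorem Dyn.pos {d : ℕ → ℕ} (h : Dyn d E G H Z V) (i : ℕ) : 0 < G i := by
  induction i with
  | zero => exact h.g0
  | succ i ih =>
    have h1 := h.ga i
    have h2 := h.h1 i
    have h3 : (0 : ℝ) ≤ d i := Nat.cast_nonneg _
    nlinarith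

theorem Dyn.growth {d : ℕ → ℕ} (h : Dyn d E G H Z V) (i : ℕ) : 3 * G i ≤ G (i + 1) := by
  have h1 := h.ga i
  have h2 := h.h1 i
  have h3 : (0 : ℝ) ≤ d i := Nat.cast_nonneg _
  have h4 := h.pos i
  nlinarith

theorem Dyn.pow_le {d : ℕ → ℕ} (h : Dyn d E G H Z V) (i : ℕ) : 3 ^ i * G 0 ≤ G i := by
  induction i with
  | zero => simp
  | succ i ih =>
    have := h.growth i
    rw [pow_succ]
    linarith

theorem Dyn.mono {d : ℕ → ℕ} (h : Dyn d E G H Z V) : Monotone G := by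
  apply monotone_nat_of_le_succ
  intro i
  have := h.growth i
  have := h.pos i
  linarith

theorem Dyn.top {d : ℕ → ℕ} (h : Dyn d E G H Z V) : Tendsto G atTop atTop := by
  refine tendsto_atTop_mono h.pow_le ?_
  exact (tendsto_pow_atTop_atTop_of_one_lt (by norm_num : (1:ℝ) < 3)).atTop_mul_const h.g0

theorem Dyn.zmono {d : ℕ → ℕ} (h : Dyn d E G H Z V) : Monotone Z := by
  apply monotone_nat_of_le_succ
  intro i
  have h1 := h.za i
  have h2 := h.pos i
  have h3 : (0 : ℝ) ≤ d i := Nat.cast_nonneg _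
  nlinarith [mul_nonneg h3 h2.le]

end Pool.Agent.D6
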