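import Pool.Agent.Lib.D6.Dyn

/-!
# The dynamics: digits, consecutive digits, the second condition

PROOFS.
`digit_le`: cases on `mach i`.
`mach_inv`: induction (`mach i = (n, j)` with `j ≤ n + 1`).
`pairs`: for all `i`, `7 ((digit (i+1) + 2)(digit i + 4) + digit i) ≤ 256 (digit i + 1)`.  Cases: `mach i = (n, 0)`: digits
  `b 0 = 1` (`0 ≠ n + 1`), then `mach (i+1) = (n+1, n+2)`, digit `p (n+1) ≤ 7`; `mach i = (n, n+1)`: digit `p n ∈ {6, 7}`, then `mach (i+1) = (n, n)`,
  digit `b n ≤ 23` (`7 (25 · 10 + 6) = 1792 = 256 · 7`, `7 (25 · 11 + 7) = 1974 ≤ 2048`); otherwise `mach i = (n, j+1)`, `j + 1 ≤ n`: digits `b (j+1)`, then `b j`: field `pr`.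
`dyn_t2`: with `k = digit i`, `d = digit (i+1)`: `V (i+1) - (Z (i+1) + H (i+1)) ≤ (d+2) G (i+1) - H (i+1) + E
  ≤ (d+2) ((k+4) G i + E) - G i + E` (`gb` with `H i ≥ 0`, `ha`) and `Z (i+1) + H (i+1) ≥ Z i + k G i + G i ≥ (k+1) G i`; by `pairs`
  `((d+2)(k+4) + k)/(k+1) ≤ 256/7 < 37`, so `V (i+1) ≤ 37 (Z (i+1) + H (i+1))` when `G i` is large (`(37 - 256/7) G i ≥ 26 E`, `k + 1 ≥ 1`).
  Then shift the index (`eventually_atTop`, `i ≥ 1`).
-/

set_option autoImplicit false

open Filter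

namespace Pool.Agent.D6

variable {σ : ℝ} {b p : ℕ → ℕ} {φ : ℕ → ℝ} {E : ℝ} {G H Z V : ℕ → ℝ}

theorem mach_inv (i : ℕ) : (mach i).2 ≤ (mach i).1 + 1 := by
  induction i with
  | zero => simp [mach]
  | succ i ih =>
    rw [mach]
    split_ifs with h
    · simp
    · simp only
      omega

theorem digit_le (g : GameData σ b φ) (hp : ∀ n, p n = 6 ∨ p n = 7) (i : ℕ) : digit b p i ≤ 23 := by
  unfold digit
  split_ifs with h
  · rcases hp (mach i).1 with h1 | h1 <;> omega
  · exact g.bd _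

theorem pairs (g : GameData σ b φ) (hp : ∀ n, p n = 6 ∨ p n = 7) (i : ℕ) :
    7 * ((digit b p (i + 1) + 2) * (digit b p i + 4) + digit b p i) ≤ 256 * (digit b p i + 1) := by
  have hinv := mach_inv i
  have hm : mach (i + 1) = if (mach i).2 = 0 then ((mach i).1 + 1, (mach i).1 + 2)
      else ((mach i).1, (mach i).2 - 1) := rfl
  unfold digit
  rw [hm]
  generalize (mach i).1 = n at *
  generalize (mach i).2 = j at *
  clear hm
  by_cases h0 : j = 0
  · subst h0
    rw [if_pos rfl]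
    have e1 : ¬ (0 = n + 1) := by omega
    simp only [e1, if_true, if_false, g.b0]
    rcases hp (n + 1) with h1 | h1 <;> rw [h1] <;> norm_num
  · rw [if_neg h0]
    by_cases h1 : j = n + 1
    · subst h1
      have e1 : ¬ (n = n + 1) := by omega
      simp only [if_true, Nat.add_sub_cancel, e1, if_false]
      have h2 := g.bd n
      rcases hp n with h3 | h3
      · rw [h3]
        omega
      · rw [h3]
        omega
    · obtain ⟨l, rfl⟩ := Nat.exists_eq_succ_of_ne_zero h0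
      have e1 : ¬ (l.succ - 1 = n + 1) := by omega
      simp only [h1, e1, if_false]
      exact g.pr l

theorem dyn_t2 (g : GameData σ b φ) (hp : ∀ n, p n = 6 ∨ p n = 7)
    (h : Dyn (digit b p) E G H Z V) : ∀ᶠ i in atTop, V i ≤ 37 * (Z i + H i) := by
  obtain ⟨N, hN⟩ := eventually_atTop.1 (h.top.eventually_ge_atTop (61 * E))
  rw [eventually_atTop]
  refine ⟨N + 1, fun i hi => ?_⟩
  obtain ⟨j, rfl⟩ := Nat.exists_eq_succ_of_ne_zero (by omega : i ≠ 0)
  have hj : 61 * E ≤ G j := hN j (by omega)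
  have hp1 := pairs (b := b) (p := p) g hp j
  have hd1 := digit_le (b := b) (p := p) g hp (j + 1)
  have hv := h.vb (j + 1)
  have hgb := h.gb j
  have hha := h.ha j
  have hza := h.za j
  have hz0 := h.z0 j
  have hh0 := h.h0 j
  have hE := h.hE
  have hG := h.pos j
  change V (j + 1) ≤ 37 * (Z (j + 1) + H (j + 1))
  have hp2 : (7 : ℝ) * (((digit b p (j + 1) : ℝ) + 2) * ((digit b p j : ℝ) + 4) + digit b p j) ≤
      256 * ((digit b p j : ℝ) + 1) := by exact_mod_cast hp1
  have hd2 : (digit b p (j + 1) : ℝ) ≤ 23 := by exact_mod_cast hd1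
  have hd0 : (0 : ℝ) ≤ digit b p (j + 1) := Nat.cast_nonneg _
  have hk0 : (0 : ℝ) ≤ digit b p j := Nat.cast_nonneg _
  generalize (digit b p (j + 1) : ℝ) = d at *
  generalize (digit b p j : ℝ) = k at *
  have h1 : (d + 2) * G (j + 1) ≤ (d + 2) * ((k + 4) * G j + E) :=
    mul_le_mul_of_nonneg_left (by linarith) (by linarith)
  have h2 : (7 * ((d + 2) * (k + 4) + k)) * G j ≤ (256 * (k + 1)) * G j :=
    mul_le_mul_of_nonneg_right hp2 hG.le
  have h3 : (d + 2) * E ≤ 25 * E := mul_le_mul_of_nonneg_right (by linarith) hE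
  have h4 : 0 ≤ k * G j := mul_nonneg hk0 hG.le
  nlinarith

end Pool.Agent.D6
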