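import Pool.Agent.Lib.D6.Dyn

/-!
# The dynamics: the special times

PROOF of `special`.
BOUND: there is `C ≥ 1` with `Z i ≤ C * G i` for all `i` (induction, `C = max 1 (max (E/G 0) (Z 0/G 0))`:
  `Z (i+1) ≤ (C + d) G i + E ≤ (2 C + d) G i ≤ C (d+3) G i ≤ C G (i+1)`, as `G i ≥ G 0 ≥ E / C`).
FUNCTIONALS: `F j (G,H,Z) = Z + (1 - φ j) H - (1 - φ (j+1)) G`.  If `mach i = (n, j+1)` with `j + 1 ≤ n` then the digit at `i` is `d = b (j+1)`
  (`j + 1 ≠ n + 1`) and `|F j (s (i+1)) - F (j+1) (s i)| ≤ 3 E`: exact identity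
  `F j ((d+4) G - H, G, Z + d G) = F (j+1) (G,H,Z)` (by `GameData.st`: `φ (j+2) = (d + 4) φ (j+1) - φ j - 2`), the coefficients `1`, `1 - φ j`, `1 - φ (j+1)` are in `[0,1]`, the three errors in `[0, E]`.
  Hence, for `mach i = (n, j)`, `j ≤ n`: `3^(n-j) |F j (s i)| ≤ (C + 2) G i + 3^(n-j) 3 E (n-j)` (induction on `m = n - j`; start
  `|F n (s)| ≤ Z + H + G ≤ (C+2) G` at `j = n`; at each step use `G (i+1) ≥ 3 G i`).  Every `i` with `mach i = (n, j)`, `j < n`, `n ≥ 1`, has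
  `mach (i-1) = (n, j+1)`; suggestion: prove by induction on `i` the statement `∀ n j, mach i = (n, j) → j ≤ n → …` (cases on
  `mach (i-1)`: `(n', 0)` leads to `(n'+1, n'+2)` with `n'+2 > n'+1`, excluded; `(n, n+1)` leads to `(n, n)`: start; `(n, j+1)`, `j + 1 ≤ n`: step; `i = 0`: `n = j = 0`: start).
SPECIAL: for `j = 0`: `F 0 = Z - σ G` (`φ 0 = 1`, `φ 1 = 1 - σ`), so `|Z i - σ G i| ≤ (C+2) G i / 3^n + 3 E n` whenever
  `mach i = (n, 0)`; `G i ≥ 3^i G 0 ≥ 3^n G 0` (`n ≤ i`: induction) so `3 E n ≤ (3 E n/(3^n G 0)) G i`; both `→ 0` relative to `G i` as `n → ∞`; and `n → ∞` as `i → ∞`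
  (given `N`, for `i` large `(mach i).1 ≥ N`: `(mach i).1` is nondecreasing and unbounded: `mach_first`, which also has to be proved: for every
  `n ≥ 1` the pair `(n, n+1)` occurs, e.g. at time `s n` with `s 1 = 1`, `s (n+1) = s n + n + 2`).
-/

set_option autoImplicit false

open Filter

namespace Pool.Agent.D6

variable {σ : ℝ} {b p : ℕ → ℕ} {φ : ℕ → ℝ} {E : ℝ} {G H Z V : ℕ → ℝ}

namespace DynBAux

theorem mach_succ (i : ℕ) : mach (i + 1) =
    if (mach i).2 = 0 then ((mach i).1 + 1, (mach i).1 + 2) else ((mach i).1, (mach i).2 - 1) := rfl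

theorem fst_le (i : ℕ) : (mach i).1 ≤ i := by
  induction i with
  | zero => simp [mach]
  | succ i ih =>
    rw [mach_succ]
    split_ifs
    · simpa using ih
    · simp only
      omega

theorem fst_mono : Monotone (fun i => (mach i).1) := by
  apply monotone_nat_of_le_succ
  intro i
  show (mach i).1 ≤ (mach (i + 1)).1
  rw [mach_succ]
  split_ifs
  · simp
  · simp

theorem countdown (n m i : ℕ) (h : mach i = (n, m)) : ∀ k, k ≤ m → mach (i + k) = (n, m - k) := by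
  intro k
  induction k with
  | zero => intro _; simpa using h
  | succ k ih =>
    intro hk
    have h1 := ih (by omega)
    rw [← add_assoc, mach_succ, h1]
    have h2 : m - k ≠ 0 := by omega
    simp only [h2, if_false]
    congr 1

theorem zero (n : ℕ) : ∃ i, n ≤ i ∧ mach i = (n, 0) := by
  induction n with
  | zero => exact ⟨0, le_refl _, rfl⟩
  | succ n ih =>
    obtain ⟨i, hi, h⟩ := ih
    have h1 : mach (i + 1) = (n + 1, n + 2) := by
      rw [mach_succ, h]
      simp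
    refine ⟨i + 1 + (n + 2), by omega, ?_⟩
    have h2 := countdown (n + 1) (n + 2) (i + 1) h1 (n + 2) (le_refl _)
    rw [h2]
    simp

/-- The functionals. -/
def F (φ : ℕ → ℝ) (G H Z : ℕ → ℝ) (j i : ℕ) : ℝ :=
  Z i + (1 - φ j) * H i - (1 - φ (j + 1)) * G i

theorem bound (d : ℕ → ℕ) {E : ℝ} {G H Z V : ℕ → ℝ} (h : Dyn d E G H Z V) :
    ∃ C : ℝ, 1 ≤ C ∧ ∀ i, Z i ≤ C * G i := by
  have hg := h.g0
  have hE := h.hE
  have hz := h.z0 0
  have e1 : 0 ≤ E / G 0 := by positivity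
  have e2 : 0 ≤ Z 0 / G 0 := by positivity
  have e3 : E / G 0 * G 0 = E := by field_simp
  have e4 : Z 0 / G 0 * G 0 = Z 0 := by field_simp
  refine ⟨1 + E / G 0 + Z 0 / G 0, by linarith, ?_⟩
  set C : ℝ := 1 + E / G 0 + Z 0 / G 0 with hC
  have hC1 : 1 ≤ C := by rw [hC]; linarith
  have hCE : E ≤ C * G 0 := by rw [hC]; nlinarith
  have hCZ : Z 0 ≤ C * G 0 := by rw [hC]; nlinarith
  intro i
  induction i with
  | zero => exact hCZ
  | succ i ih =>
    have h1 := h.zb i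
    have h2 := h.ga i
    have h3 := h.h1 i
    have h4 : (0 : ℝ) ≤ d i := Nat.cast_nonneg _
    have h5 := h.pos i
    have h6 : G 0 ≤ G i := h.mono (Nat.zero_le i)
    have h7 : E ≤ C * G i := by nlinarith
    have h8 : (d i + 3) * G i ≤ G (i + 1) := by linarith
    have h9 : C * ((d i + 3) * G i) ≤ C * G (i + 1) := by
      apply mul_le_mul_of_nonneg_left h8; linarith
    have h10 : 0 ≤ (C - 1) * (d i * G i) := by
      apply mul_nonneg (by linarith); positivity
    have h11 : 0 ≤ C * G i := by positivity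
    nlinarith

theorem step {σ : ℝ} {b : ℕ → ℕ} {φ : ℕ → ℝ} (g : GameData σ b φ) (d : ℕ → ℕ) {E : ℝ}
    {G H Z V : ℕ → ℝ} (h : Dyn d E G H Z V) (i j : ℕ) (hd : d i = b (j + 1)) :
    |F φ G H Z j (i + 1)| ≤ |F φ G H Z (j + 1) i| + 3 * E := by
  have a1 := h.ga i
  have a2 := h.gb i
  have a3 := h.ha i
  have a4 := h.hb i
  have a5 := h.za i
  have a6 := h.zb i
  have b1 := g.lo j
  have b2 := g.hi j
  have b3 := g.lo (j + 1)
  have b4 := g.hi (j + 1)
  have hE := h.hE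
  rw [hd] at a1 a2 a5 a6
  have hst := g.st j
  set D : ℝ := (b (j + 1) : ℝ) with hD
  obtain ⟨x, hx⟩ : ∃ x, x = Z (i + 1) - (Z i + D * G i) := ⟨_, rfl⟩
  obtain ⟨y, hy⟩ : ∃ y, y = H (i + 1) - G i := ⟨_, rfl⟩
  obtain ⟨z, hz⟩ : ∃ z, z = G (i + 1) - ((D + 4) * G i - H i) := ⟨_, rfl⟩
  have x0 : 0 ≤ x := by linarith
  have x1 : x ≤ E := by linarith
  have y0 : 0 ≤ y := by linarith
  have y1 : y ≤ E := by linarith
  have z0 : 0 ≤ z := by linarith
  have z1 : z ≤ E := by linarith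
  have key : F φ G H Z j (i + 1) = F φ G H Z (j + 1) i + (x + (1 - φ j) * y - (1 - φ (j + 1)) * z) := by
    unfold F
    rw [show j + 1 + 1 = j + 2 from rfl, hst]
    rw [show Z (i + 1) = x + (Z i + D * G i) by linarith, show H (i + 1) = y + G i by linarith,
      show G (i + 1) = z + ((D + 4) * G i - H i) by linarith]
    ring
  have k1 : 0 ≤ (1 - φ j) * y := mul_nonneg (by linarith) y0
  have k2 : (1 - φ j) * y ≤ E := by nlinarith
  have k3 : 0 ≤ (1 - φ (j + 1)) * z := mul_nonneg (by linarith) z0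
  have k4 : (1 - φ (j + 1)) * z ≤ E := by nlinarith
  rw [key]
  refine (abs_add_le _ _).trans ?_
  have : |x + (1 - φ j) * y - (1 - φ (j + 1)) * z| ≤ 3 * E := by
    rw [abs_le]
    constructor <;> linarith
  linarith

theorem start {σ : ℝ} {b : ℕ → ℕ} {φ : ℕ → ℝ} (g : GameData σ b φ) (d : ℕ → ℕ) {E : ℝ}
    {G H Z V : ℕ → ℝ} (h : Dyn d E G H Z V) (C : ℝ) (hC : ∀ i, Z i ≤ C * G i) (i j : ℕ) :
    |F φ G H Z j i| ≤ (C + 2) * G i := by
  have a1 := h.h0 i
  have a2 := h.h1 i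
  have a3 := h.z0 i
  have a4 := hC i
  have b1 := g.lo j
  have b2 := g.hi j
  have b3 := g.lo (j + 1)
  have b4 := g.hi (j + 1)
  have a5 := h.pos i
  have k1 : 0 ≤ (1 - φ j) * H i := mul_nonneg (by linarith) a1
  have k2 : (1 - φ j) * H i ≤ G i := by nlinarith
  have k3 : 0 ≤ (1 - φ (j + 1)) * G i := mul_nonneg (by linarith) a5.le
  have k4 : (1 - φ (j + 1)) * G i ≤ G i := by nlinarith
  unfold F
  rw [abs_le]
  constructor <;> nlinarith

theorem main {σ : ℝ} {b p : ℕ → ℕ} {φ : ℕ → ℝ} (g : GameData σ b φ) {E : ℝ}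
    {G H Z V : ℕ → ℝ} (h : Dyn (digit b p) E G H Z V) (C : ℝ) (hC1 : 1 ≤ C)
    (hC : ∀ i, Z i ≤ C * G i) : ∀ i n j, mach i = (n, j) → j ≤ n →
    3 ^ (n - j) * |F φ G H Z j i| ≤ (C + 2) * G i + 3 ^ (n - j) * (3 * E * ((n - j : ℕ) : ℝ)) := by
  intro i
  induction i with
  | zero =>
    intro n j hm hj
    have : (0, 0) = (n, j) := hm
    obtain ⟨rfl, rfl⟩ := Prod.mk.inj this
    have := start g _ h C hC 0 0
    simpa using this
  | succ i ih =>
    intro n j hm hj
    rw [mach_succ] at hm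
    split_ifs at hm with h0
    · obtain ⟨h1, h2⟩ := Prod.mk.inj hm
      omega
    · obtain ⟨h1, h2⟩ := Prod.mk.inj hm
      have h3 : (mach i).2 = j + 1 := by omega
      rcases Nat.lt_or_ge j n with hlt | hge
      · have h4 : mach i = (n, j + 1) := by rw [← h1, ← h3]
        have h5 := ih n (j + 1) h4 (by omega)
        have hd : digit b p i = b (j + 1) := by
          unfold digit
          rw [h4]
          simp only
          rw [if_neg (by omega)]
        have h6 := step g _ h i j hd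
        obtain ⟨m, hm1⟩ : ∃ m, n - j = m + 1 := ⟨n - j - 1, by omega⟩
        have hm2 : n - (j + 1) = m := by omega
        rw [hm2] at h5
        rw [hm1]
        have h7 := h.growth i
        have h8 : (0 : ℝ) < 3 ^ m := by positivity
        have h9 : 3 ^ m * |F φ G H Z j (i + 1)| ≤ 3 ^ m * (|F φ G H Z (j + 1) i| + 3 * E) :=
          mul_le_mul_of_nonneg_left h6 h8.le
        have h10 : (C + 2) * (3 * G i) ≤ (C + 2) * G (i + 1) :=
          mul_le_mul_of_nonneg_left h7 (by linarith)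
        rw [pow_succ]
        push_cast
        nlinarith
      · have h4 : n - j = 0 := by omega
        have := start g _ h C hC (i + 1) j
        rw [h4]
        simpa using this

end DynBAux

/-- Block `n` tends to infinity. -/
theorem mach_top : Tendsto (fun i => (mach i).1) atTop atTop := by
  refine tendsto_atTop_atTop_of_monotone DynBAux.fst_mono ?_
  intro n
  obtain ⟨i, _, h⟩ := DynBAux.zero n
  refine ⟨i, ?_⟩
  simp [h]

/-- In every block, the special time occurs. -/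
theorem mach_zero (n : ℕ) : ∃ i, n ≤ i ∧ mach i = (n, 0) := by
  exact DynBAux.zero n

theorem special (hσ : 0 < σ) (g : GameData σ b φ) (h : Dyn (digit b p) E G H Z V) (ε : ℝ)
    (hε : 0 < ε) : ∃ N, ∀ i, N ≤ i → (mach i).2 = 0 → |Z i - σ * G i| ≤ ε * G i := by
  obtain ⟨C, hC1, hC⟩ := DynBAux.bound _ h
  have hg := h.g0
  have hE := h.hE
  have t0 := tendsto_pow_const_div_const_pow_of_one_lt 0 (by norm_num : (1 : ℝ) < 3)
  have t1 := tendsto_pow_const_div_const_pow_of_one_lt 1 (by norm_num : (1 : ℝ) < 3)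
  have t2 : Tendsto (fun n : ℕ => (C + 2) * ((n : ℝ) ^ 0 / 3 ^ n)
      + 3 * E / G 0 * ((n : ℝ) ^ 1 / 3 ^ n)) atTop (nhds 0) := by
    have := (t0.const_mul (C + 2)).add (t1.const_mul (3 * E / G 0))
    simpa using this
  have t3 := t2.comp mach_top
  have t4 := t3.eventually (gt_mem_nhds hε)
  obtain ⟨N, hN⟩ := eventually_atTop.mp t4
  refine ⟨N, ?_⟩
  intro i hi hz
  have h1 := hN i hi
  simp only [Function.comp_apply] at h1
  obtain ⟨n, hn⟩ : ∃ n, n = (mach i).1 := ⟨_, rfl⟩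
  rw [← hn] at h1
  have h2 : mach i = (n, 0) := by rw [hn, ← hz]
  have h3 := DynBAux.main g h C hC1 hC i n 0 h2 (Nat.zero_le _)
  have h4 : DynBAux.F φ G H Z 0 i = Z i - σ * G i := by
    unfold DynBAux.F
    rw [g.f0, g.f1]
    ring
  rw [h4, Nat.sub_zero] at h3
  have h5 : (0 : ℝ) < 3 ^ n := by positivity
  have h6 : n ≤ i := by rw [hn]; exact DynBAux.fst_le i
  have h7 : (3 : ℝ) ^ n * G 0 ≤ G i := by
    refine le_trans ?_ (h.pow_le i)
    have : (3 : ℝ) ^ n ≤ 3 ^ i := pow_le_pow_right₀ (by norm_num) h6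
    nlinarith
  have h8 := h.pos i
  have h9 : |Z i - σ * G i| ≤ (C + 2) * G i / 3 ^ n + 3 * E * n := by
    rw [← sub_nonneg]
    have : 0 ≤ (C + 2) * G i + 3 ^ n * (3 * E * n) - 3 ^ n * |Z i - σ * G i| := by linarith
    have e : (C + 2) * G i / 3 ^ n + 3 * E * n - |Z i - σ * G i|
      = ((C + 2) * G i + 3 ^ n * (3 * E * n) - 3 ^ n * |Z i - σ * G i|) / 3 ^ n := by
      field_simp
    rw [e]
    positivity
  have h10 : 3 * E * n ≤ 3 * E / G 0 * ((n : ℝ) / 3 ^ n) * G i := by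
    have e : 3 * E / G 0 * ((n : ℝ) / 3 ^ n) * G i = 3 * E * n * (G i / (3 ^ n * G 0)) := by
      field_simp
    rw [e]
    have : 1 ≤ G i / (3 ^ n * G 0) := by
      rw [le_div_iff₀ (by positivity)]
      linarith
    have h11 : 0 ≤ 3 * E * (n : ℝ) := by positivity
    nlinarith
  have h12 : ((C + 2) * ((n : ℝ) ^ 0 / 3 ^ n) + 3 * E / G 0 * ((n : ℝ) ^ 1 / 3 ^ n)) * G i
      ≤ ε * G i := mul_le_mul_of_nonneg_right h1.le h8.le
  have h13 : ((C + 2) * ((n : ℝ) ^ 0 / 3 ^ n) + 3 * E / G 0 * ((n : ℝ) ^ 1 / 3 ^ n)) * G i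
      = (C + 2) * G i / 3 ^ n + 3 * E / G 0 * ((n : ℝ) / 3 ^ n) * G i := by
    rw [pow_zero, pow_one]
    ring
  linarith

end Pool.Agent.D6
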