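import Pool.Agent.Lib.D6.DynA
import Pool.Agent.Lib.D6.DynB

/-!
# The dynamics: the first and the third condition (black boxes: `special`, `mach_inv`, `mach_zero`, `Dyn.*`)

PROOFS.
`dyn_t3`: by `special` with `ε'` small, at the special times (`mach_zero`, `(mach i).2 = 0`, `i ≥ n`, arbitrarily large) `Z i ≤ (σ + ε') G i`; if
  `1/σ - ε ≤ 0` trivial (`Z, G ≥ 0`); else choose `ε'` with `(1/σ - ε)(σ + ε') ≤ 1`.
`dyn_t1`: let `k = digit i`; we bound `G (i+1)` for `i` large (then shift).  `1/σ ≥ 36`.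
  `k ≥ 1`: `Z (i+1) ≥ k G i ≥ G i → ∞`, `G (i+1) ≤ (k+4) G i + E ≤ 5 k G i + E ≤ 5 Z (i+1) + E ≤ 36 Z (i+1)` eventually.
  `k = 0`: then `mach i = (n, j)` with `1 ≤ j ≤ n`, `b j = 0` (`b 0 = 1`, `p n ≥ 6`), and `Z (i+1) = Z i` (`zc`).  Let `k' = digit (i-1)`.
   If `k' ≥ 1`: `Z i ≥ k' G (i-1)`,
    `G (i+1) ≤ 4 G i + E ≤ 4 (k'+4) G (i-1) + 5 E ≤ 20 k' G (i-1) + 5 E ≤ 20 Z (i+1) + 5 E ≤ 36 Z (i+1)` eventually.
   If `k' = 0`: `mach (i-1) = (n, j+1)` with `j + 1 ≤ n` (not `(n, n+1)`, whose digit is `p n`), `b (j+1) = 0 = b j`.  By `zz` (index `j - 1`) all the digits `b l`, `1 ≤ l ≤ j` vanish, so for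
    `1 ≤ m ≤ j`: `mach (i + m) = (n, j - m)` and the digits at the times `i, …, i + j - 1` vanish, so `Z (i+j) = Z (i+1)`, and `G (i+1) ≤ G (i+j)` (`Dyn.mono`); `i + j` is a special time:
    by `special` `Z (i+j) ≥ (σ - ε') G (i+j)`, so `G (i+1) ≤ G (i+j) ≤ (1/σ + ε) Z (i+j) = (1/σ + ε) Z (i+1)` with `(1/σ + ε)(σ - ε') ≥ 1`.
-/

set_option autoImplicit false

open Filter

namespace Pool.Agent.D6

variable {σ : ℝ} {b p : ℕ → ℕ} {φ : ℕ → ℝ} {E : ℝ} {G H Z V : ℕ → ℝ}

theorem dyn_t3 (hσ : 0 < σ) (g : GameData σ b φ)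
    (h : Dyn (digit b p) E G H Z V) (ε : ℝ) (hε : 0 < ε) : ∃ᶠ i in atTop, (1 / σ - ε) * Z i ≤ G i := by
  rw [Filter.frequently_atTop]
  intro a
  rcases le_or_gt (1 / σ - ε) 0 with hc | hc
  · refine ⟨a, le_rfl, ?_⟩
    have h1 := h.pos a
    have h2 := h.z0 a
    nlinarith [mul_nonneg (neg_nonneg.2 hc) h2]
  · obtain ⟨N, hN⟩ := special hσ g h (ε * σ / (1 / σ - ε)) (by positivity)
    obtain ⟨i, hi, hm⟩ := mach_zero (max a N)
    refine ⟨i, le_trans (le_max_left a N) hi, ?_⟩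
    have h1 := hN i (le_trans (le_max_right a N) hi) (by rw [hm])
    have h2 := (abs_le.1 h1).2
    have h3 : Z i ≤ (σ + ε * σ / (1 / σ - ε)) * G i := by linarith
    have h4 : (1 / σ - ε) * (σ + ε * σ / (1 / σ - ε)) = 1 := by
      have h5 : (1 / σ - ε) ≠ 0 := hc.ne'
      have h6 : (1 / σ - ε) * (ε * σ / (1 / σ - ε)) = ε * σ := by
        rw [← mul_div_assoc, mul_div_cancel_left₀ _ h5]
      rw [mul_add, h6]
      field_simp
      ring
    calc (1 / σ - ε) * Z i ≤ (1 / σ - ε) * ((σ + ε * σ / (1 / σ - ε)) * G i) :=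
          mul_le_mul_of_nonneg_left h3 hc.le
      _ = ((1 / σ - ε) * (σ + ε * σ / (1 / σ - ε))) * G i := by ring
      _ = G i := by rw [h4, one_mul]

namespace DynCAux

theorem mach_succ {i n j : ℕ} (h : mach i = (n, j)) (hj : j ≠ 0) : mach (i + 1) = (n, j - 1) := by
  simp [mach, h, hj]

/-- A zero digit occurs at a counter between `1` and `n`. -/
theorem digit_zero (g : GameData σ b φ) (hp : ∀ n, p n = 6 ∨ p n = 7) {i n j : ℕ}
    (h : mach i = (n, j)) (hd : digit b p i = 0) : 1 ≤ j ∧ j ≤ n ∧ b j = 0 := by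
  have h1 := mach_inv i
  unfold digit at hd
  rw [h] at hd h1
  simp only at hd h1
  split_ifs at hd with h2
  · rcases hp n with h3 | h3 <;> omega
  · refine ⟨?_, by omega, hd⟩
    rcases Nat.eq_zero_or_pos j with h3 | h3
    · rw [h3, g.b0] at hd
      omega
    · exact h3

theorem mach_run {i n j : ℕ} (h : mach i = (n, j)) (m : ℕ) (hm : m ≤ j) :
    mach (i + m) = (n, j - m) := by
  induction m with
  | zero => simpa using h
  | succ m ih =>
    have h1 := ih (by omega)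
    have h2 := mach_succ h1 (by omega)
    rw [← Nat.add_assoc, h2]
    congr 1

theorem z_run (h : Dyn (digit b p) E G H Z V) {i n j : ℕ} (hm : mach i = (n, j)) (hj : j ≤ n)
    (hz : ∀ l, 1 ≤ l → l ≤ j → b l = 0) (m : ℕ) (hmj : m ≤ j) : Z (i + m) = Z i := by
  induction m with
  | zero => rfl
  | succ m ih =>
    have h1 := mach_run hm m (by omega)
    have h2 : digit b p (i + m) = 0 := by
      unfold digit
      rw [h1]
      simp only
      rw [if_neg (by omega)]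
      exact hz _ (by omega) (by omega)
    rw [← Nat.add_assoc, h.zc _ h2]
    exact ih (by omega)

end DynCAux

open DynCAux in
theorem dyn_t1 (hσ : 0 < σ) (hσ1 : σ ≤ 1 / 36) (g : GameData σ b φ) (hp : ∀ n, p n = 6 ∨ p n = 7)
    (h : Dyn (digit b p) E G H Z V) (ε : ℝ) (hε : 0 < ε) : ∀ᶠ i in atTop, G i ≤ (1 / σ + ε) * Z i := by
  have hc : 36 ≤ 1 / σ := by
    rw [le_div_iff₀ hσ]
    linarith
  have hc0 : 0 < 1 / σ + ε := by linarith
  obtain ⟨N, hN⟩ := special hσ g h (ε * σ / (1 / σ + ε)) (by positivity)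
  obtain ⟨M, hM⟩ := (Filter.eventually_atTop).1 (h.top.eventually_ge_atTop E)
  rw [Filter.eventually_atTop]
  refine ⟨max N M + 2, fun i' hi' => ?_⟩
  have hN' : N ≤ max N M := le_max_left _ _
  have hM' : M ≤ max N M := le_max_right _ _
  obtain ⟨i, rfl⟩ : ∃ i, i' = i + 2 := ⟨i' - 2, by omega⟩
  have hE := h.hE
  have hG0 := hM i (by omega)
  have hG1 := hM (i + 1) (by omega)
  have p0 := h.pos i
  have p1 := h.pos (i + 1)
  have q0 := h.z0 i
  have q1 := h.z0 (i + 1)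
  have q2 := h.z0 (i + 2)
  -- it is enough to bound by `36 Z`
  have red : G (i + 2) ≤ 36 * Z (i + 2) → G (i + 2) ≤ (1 / σ + ε) * Z (i + 2) := by
    intro h1
    have : 36 * Z (i + 2) ≤ (1 / σ + ε) * Z (i + 2) :=
      mul_le_mul_of_nonneg_right (by linarith) q2
    linarith
  have ub : G (i + 2) ≤ ((digit b p (i + 1) : ℝ) + 4) * G (i + 1) - H (i + 1) + E := h.gb (i + 1)
  have lz : Z (i + 1) + (digit b p (i + 1) : ℝ) * G (i + 1) ≤ Z (i + 2) := h.za (i + 1)
  have ub' : G (i + 1) ≤ ((digit b p i : ℝ) + 4) * G i - H i + E := h.gb i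
  have lz' : Z i + (digit b p i : ℝ) * G i ≤ Z (i + 1) := h.za i
  have H0 := h.h0 i
  have H1 := h.h0 (i + 1)
  rcases Nat.eq_zero_or_pos (digit b p (i + 1)) with hk | hk
  · have hz1 : Z (i + 2) = Z (i + 1) := h.zc (i + 1) hk
    rw [hk] at ub
    rcases Nat.eq_zero_or_pos (digit b p i) with hk' | hk'
    · -- two consecutive zeros
      obtain ⟨⟨n, j⟩, hm⟩ : ∃ q, mach i = q := ⟨_, rfl⟩
      obtain ⟨a1, a2, a3⟩ := digit_zero g hp hm hk'
      have hm1 := mach_succ hm (by omega)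
      obtain ⟨c1, c2, c3⟩ := digit_zero g hp hm1 hk
      obtain ⟨j, rfl⟩ : ∃ j', j = j' + 2 := ⟨j - 2, by omega⟩
      have e1 : j + 2 - 1 = j + 1 := by omega
      rw [e1] at hm1 c1 c2 c3
      have hz : ∀ l, 1 ≤ l → l ≤ j + 1 → b l = 0 := by
        intro l l1 l2
        rcases Nat.lt_or_ge l (j + 1) with l3 | l3
        · exact g.zz j c3 a3 l l1 (by omega)
        · have : l = j + 1 := by omega
          rw [this]
          exact c3
      have hr := mach_run hm1 (j + 1) le_rfl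
      have hZ := z_run h hm1 c2 hz (j + 1) le_rfl
      have hs := hN (i + 1 + (j + 1)) (by omega) (by rw [hr]; simp)
      have hs' := (abs_le.1 hs).1
      have hmono : G (i + 2) ≤ G (i + 1 + (j + 1)) := h.mono (by omega)
      have h4 : (1 / σ + ε) * (σ - ε * σ / (1 / σ + ε)) = 1 := by
        have h5 : (1 / σ + ε) ≠ 0 := hc0.ne'
        have h6 : (1 / σ + ε) * (ε * σ / (1 / σ + ε)) = ε * σ := by
          rw [← mul_div_assoc, mul_div_cancel_left₀ _ h5]
        rw [mul_sub, h6]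
        field_simp
        ring
      have h7 : (σ - ε * σ / (1 / σ + ε)) * G (i + 1 + (j + 1)) ≤ Z (i + 1 + (j + 1)) := by
        linarith
      calc G (i + 2) ≤ G (i + 1 + (j + 1)) := hmono
        _ = ((1 / σ + ε) * (σ - ε * σ / (1 / σ + ε))) * G (i + 1 + (j + 1)) := by
            rw [h4, one_mul]
        _ = (1 / σ + ε) * ((σ - ε * σ / (1 / σ + ε)) * G (i + 1 + (j + 1))) := by ring
        _ ≤ (1 / σ + ε) * Z (i + 1 + (j + 1)) := mul_le_mul_of_nonneg_left h7 hc0.le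
        _ = (1 / σ + ε) * Z (i + 2) := by rw [hZ, hz1]
    · apply red
      have hk1 : (1 : ℝ) ≤ digit b p i := by exact_mod_cast hk'
      have e1 : G (i + 1) ≤ 5 * ((digit b p i : ℝ) * G i) + E := by
        have : ((digit b p i : ℝ) + 4) * G i ≤ 5 * ((digit b p i : ℝ) * G i) := by
          nlinarith [mul_le_mul_of_nonneg_right hk1 p0.le]
        linarith
      have e2 : G i ≤ (digit b p i : ℝ) * G i := by
        nlinarith [mul_le_mul_of_nonneg_right hk1 p0.le]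
      rw [hz1]
      push_cast at ub
      nlinarith
  · apply red
    have hk1 : (1 : ℝ) ≤ digit b p (i + 1) := by exact_mod_cast hk
    have e1 : G (i + 2) ≤ 5 * ((digit b p (i + 1) : ℝ) * G (i + 1)) + E := by
      have : ((digit b p (i + 1) : ℝ) + 4) * G (i + 1) ≤
          5 * ((digit b p (i + 1) : ℝ) * G (i + 1)) := by
        nlinarith [mul_le_mul_of_nonneg_right hk1 p1.le]
      linarith
    have e2 : G (i + 1) ≤ (digit b p (i + 1) : ℝ) * G (i + 1) := by
      nlinarith [mul_le_mul_of_nonneg_right hk1 p1.le]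
    nlinarith

end Pool.Agent.D6
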