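import Pool.Agent.Lib.D6.Sizes

/-!
# The exponent `hat λ_2`

PROOF.  Let `ξ = xi T` (`1/2 ≤ ξ ≤ 1`: `Path.le_xi`, `Path.xi_le`), `a = Λ/(2Λ-1)`, `1/a = 2 - 1/Λ`.
UPPER BOUND (`hlam_le`): suppose `r` is in the set and `r > a`.  Choose `ε > 0` with `ε < Λ - 1`, `r (2 - 1/(Λ - ε)) > 1`.  By `t3` (`Frequently`) and
  `u_top` there is `n` large with `(Λ - ε) lg z ≤ lg u`; so `lg v ≥ 2 lg u - lg z ≥ (2 - 1/(Λ-ε)) lg u`.  Take `X = v.x/20 ≥ X₀`.
  `SimAp 2 ξ r X` gives `x : Fin 3 → ℤ`; `y0 = x 0`, `y1 = x 1`, `y2 = x 2`, errors `≤ X^(-r) ≤ 1/(20 u.x)` (logarithms: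
  `r (lg v - log 20) ≥ lg u + log 20` for `lg u` large).  Contradiction with `lam_lower` (`Path.app_u`, `Path.app_v`).
LOWER BOUND (`le_hlam`): let `r < a`, WLOG `0 ≤ r` (or `max r 0`, or handle `r < 0` by the case `r = 0`; the set is downward closed for `X ≥ 1`).  Choose `ε > 0` with `r (2 - 1/(Λ+ε)) < 1`.
  For `X` large take `n` with `(T n).u.x ≤ X < (T (n+1)).u.x` (`first_passage` with `a n = lg (T n).u`, `t = log X`).
  If `op n` is `A` or `J`: `(T (n+1)).u = (T n).v`; the point `u = (T n).u` works: errors `≤ 3/u.x` (`App.a_abs`, `App.b_abs`) and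
   `3/u.x ≤ X^(-r)` since `r log X ≤ r lg v ≤ r (2 lg u - lg z + log 2) ≤ r ((2 - 1/(Λ+ε)) lg u + log 2) ≤ lg u - log 3`.
  If `op n = K`: `(T (n+1)).u = step v W`.  If `X < v.x` use `u` as before.  Otherwise use `v`: `r log X ≤ r (2 lg v - lg W + log 2)` and
   `lg W ≥ lg v/(Λ+ε)` by `t2`, so `≤ lg v - log 3` for `lg v` large.
-/

set_option autoImplicit false

open Filter Topology

namespace Pool.Agent.D6

namespace ExLamAux

theorem sim_of_app {ξ r X : ℝ} {P : Pt} (h1 : 1 / 2 ≤ ξ) (h2 : ξ ≤ 1) (a : App ξ P)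
    (hX : (P.x : ℝ) ≤ X) (h : r * Real.log X ≤ lg P - Real.log 3) : SimAp 2 ξ r X := by
  have hx := a.xpos
  have hX0 : 0 < X := lt_of_lt_of_le hx hX
  have key : 3 / (P.x : ℝ) ≤ X ^ (-r) := by
    rw [Real.rpow_def_of_pos hX0]
    have e : 3 / (P.x : ℝ) = Real.exp (Real.log 3 - lg P) := by
      rw [Real.exp_sub, Real.exp_log (by norm_num), a.bx.exp_lg]
    rw [e]
    apply Real.exp_le_exp.2
    linarith
  refine ⟨![P.x, P.y, P.z], ?_, ?_, ?_⟩
  · have := a.bx.hx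
    simp only [Matrix.cons_val_zero]
    omega
  · simp only [Matrix.cons_val_zero]
    rw [abs_of_pos hx]
    exact hX
  · intro j
    fin_cases j
    · have h3 := a.a_abs
      have h4 : 2 / (P.x : ℝ) ≤ 3 / P.x := by gcongr; norm_num
      simp only [Matrix.cons_val_zero, Fin.zero_eta, zero_add, pow_one,
        Fin.succ_zero_eq_one, Matrix.cons_val_one]
      exact h3.trans (h4.trans key)
    · have h3 := a.b_abs h1 h2
      have e : ((⟨1, by norm_num⟩ : Fin 2) : ℕ) + 1 = 2 := rfl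
      have e2 : (![P.x, P.y, P.z] : Fin 3 → ℤ) (Fin.succ (⟨1, by norm_num⟩ : Fin 2)) = P.z := rfl
      rw [e]
      simp only [Matrix.cons_val_zero]
      erw [e2]
      exact h3.trans key

theorem sim_mono {ξ r s X : ℝ} (hrs : r ≤ s) (hX : 1 ≤ X) (h : SimAp 2 ξ s X) : SimAp 2 ξ r X := by
  obtain ⟨x, h0, h1, h2⟩ := h
  refine ⟨x, h0, h1, fun j => (h2 j).trans ?_⟩
  exact Real.rpow_le_rpow_of_exponent_le hX (by linarith)

theorem upper {T : ℕ → St} {op : ℕ → Op} {Λ : ℝ} (hΛ : 5 ≤ Λ) (h : Path T op) (l : Lim T op Λ)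
    {r X₀ : ℝ} (hr : Λ / (2 * Λ - 1) < r) (H : ∀ X : ℝ, X₀ ≤ X → SimAp 2 (xi T) r X) : False := by
  have hp : 0 < 2 * Λ - 1 := by linarith
  have hr1 : Λ < r * (2 * Λ - 1) := by rwa [div_lt_iff₀ hp] at hr
  have hr2 : 1 / 2 < r := by nlinarith
  set d := r * (2 * Λ - 1) - Λ with hd
  have hd0 : 0 < d := by linarith
  obtain ⟨ε, hε0, hε1, hε2⟩ : ∃ ε : ℝ, 0 < ε ∧ ε ≤ 1 ∧ ε * (2 * r - 1) < d := by
    refine ⟨min 1 (d / (2 * (2 * r - 1))), ?_, min_le_left _ _, ?_⟩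
    · apply lt_min one_pos
      apply div_pos hd0
      linarith
    · have h3 : 0 < 2 * r - 1 := by linarith
      calc min 1 (d / (2 * (2 * r - 1))) * (2 * r - 1) ≤ d / (2 * (2 * r - 1)) * (2 * r - 1) := by
            gcongr
            exact min_le_right _ _
        _ = d / 2 := by field_simp
        _ < d := by linarith
  have hL : 0 < Λ - ε := by linarith
  set c := r * (2 - 1 / (Λ - ε)) - 1 with hc
  have hc0 : 0 < c := by
    have e : c = (d - ε * (2 * r - 1)) / (Λ - ε) := by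
      rw [hc, hd]
      field_simp
      ring
    rw [e]
    apply div_pos _ hL
    linarith
  obtain ⟨n, h3, h4⟩ := ((l.t3 ε hε0).and_eventually ((l.u_top h).eventually_ge_atTop
    (max (20 * X₀) ((1 + r) * Real.log 20 / c)))).exists
  have h5 : 20 * X₀ ≤ lg (T n).u := (le_max_left _ _).trans h4
  have h6 : (1 + r) * Real.log 20 ≤ c * lg (T n).u := by
    have := (le_max_right (20 * X₀) ((1 + r) * Real.log 20 / c)).trans h4
    rw [div_le_iff₀ hc0] at this
    linarith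
  have hi := h.inv n
  have h7 := hi.lv.1
  have h8 : lg (T n).z ≤ lg (T n).u * (1 / (Λ - ε)) := by
    rw [mul_one_div, le_div_iff₀ hL]
    linarith
  have h9 : (1 + c) * lg (T n).u ≤ r * lg (T n).v := by
    have e : (1 + c) * lg (T n).u = r * (2 * lg (T n).u - lg (T n).u * (1 / (Λ - ε))) := by
      rw [hc]; ring
    rw [e]
    apply mul_le_mul_of_nonneg_left _ (by linarith)
    linarith
  have hvx := hi.bv.xpos
  have hux := hi.bu.xpos
  have huv := lg_lt hi.bu hi.gv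
  have hX : X₀ ≤ ((T n).v.x : ℝ) / 20 := by
    have h10 : lg (T n).v ≤ (T n).v.x - 1 := Real.log_le_sub_one_of_pos hvx
    rw [le_div_iff₀ (by norm_num)]
    linarith
  obtain ⟨x, hx0, hx1, hx2⟩ := H _ hX
  have hXp : 0 < ((T n).v.x : ℝ) / 20 := by positivity
  have key : (((T n).v.x : ℝ) / 20) ^ (-r) ≤ 1 / (20 * (T n).u.x) := by
    rw [Real.rpow_def_of_pos hXp, Real.log_div hvx.ne' (by norm_num)]
    have e : 1 / (20 * ((T n).u.x : ℝ)) = Real.exp (-(Real.log 20 + lg (T n).u)) := by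
      rw [Real.exp_neg, Real.exp_add, Real.exp_log (by norm_num), hi.bu.exp_lg, one_div]
    rw [e]
    apply Real.exp_le_exp.2
    change (lg (T n).v - Real.log 20) * -r ≤ _
    nlinarith
  refine lam_lower h.le_xi h.xi_le hi (h.app_u n) (h.app_v n) (x 0) (x 1) (x 2) hx0 hx1 ?_ ?_
  · have := hx2 0
    simp only [Fin.val_zero, zero_add, pow_one] at this
    exact this.trans key
  · have := hx2 1
    have e : ((1 : Fin 2) : ℕ) + 1 = 2 := rfl
    rw [e] at this
    exact this.trans key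

theorem lower {T : ℕ → St} {op : ℕ → Op} {Λ : ℝ} (hΛ : 5 ≤ Λ) (h : Path T op) (l : Lim T op Λ)
    {r : ℝ} (hr0 : 0 ≤ r) (hr : r < Λ / (2 * Λ - 1)) :
    ∃ X₀ : ℝ, ∀ X : ℝ, X₀ ≤ X → SimAp 2 (xi T) r X := by
  have hp : 0 < 2 * Λ - 1 := by linarith
  have hr1 : r * (2 * Λ - 1) < Λ := by rwa [lt_div_iff₀ hp] at hr
  have hr2 : 2 * r - 1 ≤ 1 := by nlinarith
  set d := Λ - r * (2 * Λ - 1) with hd
  have hd0 : 0 < d := by linarith
  obtain ⟨ε, hε0, hε2⟩ : ∃ ε : ℝ, 0 < ε ∧ ε * (2 * r - 1) < d := by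
    refine ⟨d / 2, by linarith, ?_⟩
    nlinarith
  have hL : 0 < Λ + ε := by linarith
  set c := 1 - r * (2 - 1 / (Λ + ε)) with hc
  have hc0 : 0 < c := by
    have e : c = (d - ε * (2 * r - 1)) / (Λ + ε) := by
      rw [hc, hd]
      field_simp
      ring
    rw [e]
    apply div_pos _ hL
    linarith
  obtain ⟨n0, hn0⟩ := (((l.t1 ε hε0).and (l.t2 ε hε0)).and ((l.u_top h).eventually_ge_atTop
    ((r * Real.log 2 + Real.log 3) / c))).exists_forall_of_atTop
  refine ⟨(T n0).u.x, fun X hX => ?_⟩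
  have hX0 : 0 < X := lt_of_lt_of_le (h.inv n0).bu.xpos hX
  obtain ⟨n, hn, ha, hb⟩ := first_passage (l.u_top h) n0 (Real.log X)
    (Real.log_le_log (h.inv n0).bu.xpos hX)
  obtain ⟨⟨ht1, ht2⟩, hB⟩ := hn0 n hn
  have hB' : r * Real.log 2 + Real.log 3 ≤ c * lg (T n).u := by
    rw [div_le_iff₀ hc0] at hB
    linarith
  have hi := h.inv n
  have hgen : ∀ p q s : ℝ, lg (T n).u ≤ p → p ≤ (Λ + ε) * q → s ≤ 2 * p - q + Real.log 2 →
      r * s ≤ p - Real.log 3 := by
    intro p q s h1 h2 h3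
    have h4 : p * (1 / (Λ + ε)) ≤ q := by
      rw [mul_one_div, div_le_iff₀ hL]
      linarith
    have h5 : r * s ≤ r * (2 * p - p * (1 / (Λ + ε)) + Real.log 2) :=
      mul_le_mul_of_nonneg_left (by linarith) hr0
    have h6 : r * (2 * p - p * (1 / (Λ + ε)) + Real.log 2) = (1 - c) * p + r * Real.log 2 := by
      rw [hc]; ring
    have h7 : c * lg (T n).u ≤ c * p := mul_le_mul_of_nonneg_left h1 hc0.le
    linarith
  have useu : Real.log X ≤ lg (T n).v → SimAp 2 (xi T) r X := by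
    intro h3
    refine sim_of_app h.le_xi h.xi_le (h.app_u n) ?_ ?_
    · have := Real.exp_le_exp.2 ha
      rw [hi.bu.exp_lg, Real.exp_log hX0] at this
      exact this
    · exact hgen _ _ _ le_rfl ht1 (h3.trans hi.lv.2)
  rcases ho : op n with _ | _ | _
  · have e : (T (n + 1)).u = (T n).v := by rw [h.st n, ho]; rfl
    rw [e] at hb
    exact useu hb.le
  · have e : (T (n + 1)).u = (T n).v := by rw [h.st n, ho]; rfl
    rw [e] at hb
    exact useu hb.le
  · have e : (T (n + 1)).u = step (T n).v (T n).W := by rw [h.st n, ho]; rfl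
    rw [e] at hb
    rcases le_or_gt (Real.log X) (lg (T n).v) with h3 | h3
    · exact useu h3
    · refine sim_of_app h.le_xi h.xi_le (h.app_v n) ?_ ?_
      · have := Real.exp_le_exp.2 h3.le
        rw [hi.bv.exp_lg, Real.exp_log hX0] at this
        exact this
      · exact hgen _ _ _ (lg_lt hi.bu hi.gv).le (ht2 ho) (hb.le.trans hi.lX.2)

end ExLamAux

theorem hlam_eq {T : ℕ → St} {op : ℕ → Op} {Λ : ℝ} (hΛ : 5 ≤ Λ) (h : Path T op) (l : Lim T op Λ) :
    hlam 2 (xi T) = ((Λ / (2 * Λ - 1) : ℝ) : EReal) := by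
  apply le_antisymm
  · apply sSup_le
    rintro _ ⟨r, rfl, X₀, H⟩
    rw [EReal.coe_le_coe_iff]
    by_contra hr
    exact ExLamAux.upper hΛ h l (not_le.1 hr) H
  · by_contra hlt
    rw [not_le] at hlt
    obtain ⟨r, h1, h2⟩ := EReal.lt_iff_exists_real_btwn.1 hlt
    have h2' : r < Λ / (2 * Λ - 1) := EReal.coe_lt_coe_iff.1 h2
    have hpos : 0 < Λ / (2 * Λ - 1) := div_pos (by linarith) (by linarith)
    obtain ⟨X₀, H⟩ := ExLamAux.lower hΛ h l (le_max_right r 0) (max_lt h2' hpos)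
    apply absurd h1 (not_lt.2 _)
    apply le_sSup
    refine ⟨r, rfl, max X₀ 1, fun X hX => ?_⟩
    exact ExLamAux.sim_mono (le_max_left r 0) ((le_max_right _ _).trans hX)
      (H X ((le_max_left _ _).trans hX))

end Pool.Agent.D6
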