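import Pool.Agent.Lib.D6.Sizes

/-!
# The exponents `hat w_2` and `hat w_2^*`: lower bounds

PROOF.  `ξ = xi T` transcendental, `w = (2Λ-1)/(Λ-1) = 2 + 1/(Λ-1) ≤ 9/4`.  Let `r < w`, `0 ≤ r` (the claim for negative `r`
follows from `r = 0`, or take the sup over `0 ≤ r < w`; `0 < w`).  Let `K` be the constant of `poly_ap`.  We show: for all large `X`, `Appr 2 ξ r X ∧ PolAp 2 ξ r X`.
Put `a n = lg (T n).u - lg (T n).z → ∞` (`t4`).  Given `X` large put `t = log X - log K`; by `first_passage` there is `n` large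
with `a n ≤ t < a (n+1)`.  Apply `poly_ap` to a pair `(P, Q)` with `h := lg Q - lg P ≤ t` (so `K Q.x/P.x ≤ X`), `h ≥ log 2`
(so `2 P.x ≤ Q.x`), and a bound `|pv (pol P Q) ξ| ≤ B` with `log K + log B ≤ - r log X`; since `log X < h' + log K`, where `h'` is the next
threshold, it suffices that `r (h' + log K) + log K + log B ≤ 0`.  Write `u, z, W, v` for the points of `T n`, `U, Z, O, V` for their
logarithms, `L = log 2`.  All the points involved are `App` (`Path.app_u/z/W/v`), `pol_val` bounds the value.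
CASE A (`op n = A`; `T (n+1) = (v, u, W)`, `a (n+1) = V - U ≤ U - Z + L`).  Pair `(z, u)`, `h = U - Z = a n`.  `S = v`:
  `det3 z u v = 0` (`v = step u z`), so `|pv| ≤ 10 (u.x/z.x)/v.x²`, `log B = log 10 + U - Z - 2 V ≤ log 10 - 3 U + Z` (`V ≥ 2U - Z`).
  Need `r (U - Z + L + log K) + log K + log 10 ≤ 3 U - Z`: true for `U - Z` large as `r < 9/4 < 3` and `Z ≥ 0`.
CASE J (`op n = J`; `T (n+1) = (v, W, u)`, `a (n+1) = V - O`, and `(T (n+1)).v = step v W =: X'`).  Pair `(z, u)`.  `S = X'`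
  (`app_v (n+1)`): `det3 z u X' = - det3 z u W = ± 2` (`det3 z u v = 0`), `|pv| ≤ (2 + 10 (u.x/z.x)/X'.x)/X'.x ≤ 12/X'.x`.
  `lg X' ≥ 2 V - O`.  Need `r (V - O + log K) + C ≤ 2 V - O`: `t1` at `n+1`: `V ≤ (Λ+ε) O`, so
  `2V - O = 2 (V-O) + O ≥ (2 + 1/(Λ-1+ε)) (V - O)` and `r < 2 + 1/(Λ-1+ε)`; `V - O = a (n+1) → ∞`.
CASE K (`op n = K`; `T (n+1) = (X', z, u)`, `X' = step v W`, `a (n+1) = lg X' - Z`; put `v' = (T (n+1)).v = step X' z`,
  `lg v' ≥ 2 lg X' - Z`).  Thresholds `a n ≤ t < V - O`: pair `(z, u)`, `S = X' = (T (n+1)).u`, as in case J with `t2` at `n`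
  instead of `t1` (`V ≤ (Λ+ε) O`; `V - O ≥ V - U → ∞`).
  `V - O ≤ t < lg X' - U`: pair `(W, v)` (`Inv.gWv`), `h = V - O`, `S = v'`: `det3 W v v' = - det3 W v z` up to the sign conventions
   (`v' = br X' z • X' - z`, `X' = br v W • v - W`), `det3 W v z = br u z • det3 W u z` (`v = br u z • u - z`), so `|det| = 2 br u z`
   and `br u z = (v.x + z.x)/u.x ≤ 2 v.x/u.x`: `|pv| ≤ (4 v.x/u.x + 10 (v.x/W.x)/v'.x)/v'.x ≤ 14 (v.x/u.x)/v'.x`.
   Need `r (lg X' - U + log K) + C ≤ lg v' - V + U`; `lg v' ≥ 2 lg X' - Z`; `r ≤ 9/4`: it suffices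
   `(1/4)(lg X' - U) + C' ≤ 3 U - Z - V`; `V ≤ 2 U - Z + L` gives `3U - Z - V ≥ U - L`; `lg X' - U ≤ 2 V - O + L - U ≤ 3 U - 2 Z - O + 3 L ≤ 3 U + 3L`: fine for
   `U` large (`(3/4) U + C'' ≤ U`).
  `lg X' - U ≤ t < lg X' - Z = a (n+1)`: pair `(u, X')` (`good_trans _ gv gX`), `S = v'`: `det3 u X' v' = - det3 u X' z = ± 2`
   (`det_K`), `|pv| ≤ 12/v'.x`.  Need `r (lg X' - Z + log K) + C ≤ 2 lg X' - Z`: `t1` at `n+1`: `lg X' ≤ (Λ+ε) Z`, as in case J.
-/

set_option autoImplicit false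

open Filter Topology

namespace Pool.Agent.D6

namespace ExLoAux

theorem bd {ξ : ℝ} (h1 : 1 / 2 ≤ ξ) (h2 : ξ ≤ 1) {P Q S : Pt} (aP : App ξ P) (aQ : App ξ Q)
    (g : Good P Q) (aS : App ξ S) {D ρ : ℝ} (hD : 0 ≤ D)
    (hdet : |(det3 P Q S : ℝ)| ≤ D * Real.exp ρ) (hρ : lg Q - lg P - lg S ≤ ρ) :
    |WnF.pv (pol P Q) ξ| ≤ Real.exp (Real.log (D + 10) + ρ - lg S) := by
  have h := pol_val h1 h2 aP g aS
  have e1 : ((Q.x : ℝ) / P.x) / S.x = Real.exp (lg Q - lg P - lg S) := by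
    rw [Real.exp_sub, Real.exp_sub, aP.bx.exp_lg, aQ.bx.exp_lg, aS.bx.exp_lg]
  have e2 : ((Q.x : ℝ) / P.x) / S.x ≤ Real.exp ρ := by
    rw [e1]; exact Real.exp_le_exp.2 hρ
  have e3 : Real.exp (Real.log (D + 10) + ρ - lg S) = (D + 10) * Real.exp ρ / S.x := by
    rw [Real.exp_sub, Real.exp_add, Real.exp_log (by linarith), aS.bx.exp_lg]
  rw [e3]
  refine h.trans ?_
  apply div_le_div_of_nonneg_right _ aS.bx.xpos.le
  have e4 : 10 * ((Q.x : ℝ) / P.x) / S.x = 10 * (((Q.x : ℝ) / P.x) / S.x) := by ring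
  rw [e4]
  have e5 : (D + 10) * Real.exp ρ = D * Real.exp ρ + 10 * Real.exp ρ := by ring
  rw [e5]
  exact add_le_add hdet (by linarith)

theorem fin {K : ℝ} (hK : 1 ≤ K)
    (hap : ∀ ξ : ℝ, 1 / 2 ≤ ξ → ξ ≤ 1 → Transcendental ℚ ξ →
      ∀ P Q : Pt, App ξ P → App ξ Q → Good P Q → 2 * (P.x : ℝ) ≤ Q.x → ∀ r X : ℝ, 0 ≤ r → 1 ≤ X →
      K * ((Q.x : ℝ) / P.x) ≤ X → K * |WnF.pv (pol P Q) ξ| ≤ X ^ (-r) →
      WnF.Appr 2 ξ r X ∧ PolAp 2 ξ r X)
    {ξ : ℝ} (h1 : 1 / 2 ≤ ξ) (h2 : ξ ≤ 1) (htr : Transcendental ℚ ξ) {P Q S : Pt} (aP : App ξ P)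
    (aQ : App ξ Q) (g : Good P Q) (aS : App ξ S) {r X : ℝ} (hr : 0 ≤ r) (hX : 1 ≤ X)
    (D ρ : ℝ) (hD : 0 ≤ D)
    (hdet : |(det3 P Q S : ℝ)| ≤ D * Real.exp ρ) (hρ : lg Q - lg P - lg S ≤ ρ)
    (hL : Real.log 2 ≤ lg Q - lg P) (hh : Real.log K + (lg Q - lg P) ≤ Real.log X)
    (hv : Real.log K + Real.log (D + 10) + ρ + r * Real.log X ≤ lg S) :
    WnF.Appr 2 ξ r X ∧ PolAp 2 ξ r X := by
  have hK0 : 0 < K := by linarith
  have hX0 : 0 < X := by linarith
  have hb := bd h1 h2 aP aQ g aS hD hdet hρ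
  have eQP : (Q.x : ℝ) / P.x = Real.exp (lg Q - lg P) := by
    rw [Real.exp_sub, aP.bx.exp_lg, aQ.bx.exp_lg]
  refine hap ξ h1 h2 htr P Q aP aQ g ?_ r X hr hX ?_ ?_
  · have h3 : (2 : ℝ) ≤ (Q.x : ℝ) / P.x := by
      rw [eQP, ← Real.exp_log (by norm_num : (0 : ℝ) < 2)]
      exact Real.exp_le_exp.2 hL
    rwa [le_div_iff₀ aP.bx.xpos] at h3
  · rw [eQP]
    calc K * Real.exp (lg Q - lg P) = Real.exp (Real.log K + (lg Q - lg P)) := by
          rw [Real.exp_add, Real.exp_log hK0]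
      _ ≤ Real.exp (Real.log X) := Real.exp_le_exp.2 hh
      _ = X := Real.exp_log hX0
  · calc K * |WnF.pv (pol P Q) ξ| ≤ K * Real.exp (Real.log (D + 10) + ρ - lg S) :=
          mul_le_mul_of_nonneg_left hb hK0.le
      _ = Real.exp (Real.log K + (Real.log (D + 10) + ρ - lg S)) := by
          rw [Real.exp_add (Real.log K), Real.exp_log hK0]
      _ ≤ Real.exp (Real.log X * (-r)) := by
          apply Real.exp_le_exp.2
          linarith
      _ = X ^ (-r) := by rw [Real.rpow_def_of_pos hX0]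

theorem det_zuv (t : St) : det3 t.z t.u t.v = 0 := by
  simp only [St.v, det3, step, br]
  ring

theorem det_zuX (t : St) : det3 t.z t.u (step t.v t.W) = - det3 t.z t.u t.W := by
  have h2 : det3 t.z t.u (step t.v t.W) = br t.v t.W * det3 t.z t.u t.v - det3 t.z t.u t.W := by
    simp only [det3, step]
    ring
  rw [h2, det_zuv]
  ring

theorem det_uXv (t : St) : det3 t.u (step t.v t.W) (step (step t.v t.W) t.z) =
    det3 t.z t.u t.W := by
  have h2 : det3 t.u (step t.v t.W) (step (step t.v t.W) t.z) =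
      det3 t.z (step t.v t.W) t.u := by
    generalize step t.v t.W = Y
    simp only [det3, step, br]
    ring
  rw [h2, det_K]

theorem det_Wvv (t : St) : det3 t.W t.v (step (step t.v t.W) t.z) =
    br t.u t.z * det3 t.z t.u t.W := by
  have h1 : det3 t.W t.v (step t.v t.W) = 0 := by
    generalize t.v = Y
    simp only [det3, step, br]
    ring
  have h2 : det3 t.W t.v (step (step t.v t.W) t.z) =
      br (step t.v t.W) t.z * det3 t.W t.v (step t.v t.W) - det3 t.W t.v t.z := by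
    generalize step t.v t.W = Y
    simp only [det3, step]
    ring
  have h3 : det3 t.W t.v t.z = br t.u t.z * det3 t.W t.u t.z := by
    simp only [St.v, det3, step]
    ring
  rw [h2, h1, h3]
  simp only [det3]
  ring

theorem abs_det {t : St} (h : Inv t) : |(det3 t.z t.u t.W : ℝ)| = 2 := by
  have h1 : ((det3 t.z t.u t.W : ℤ) : ℝ) ^ 2 = 4 := by exact_mod_cast h.hd
  have h2 : |(det3 t.z t.u t.W : ℝ)| ^ 2 = 4 := by rw [sq_abs]; exact h1
  have h3 := abs_nonneg (det3 t.z t.u t.W : ℝ)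
  nlinarith

theorem br_le {t : St} (h : Inv t) : |(br t.u t.z : ℝ)| ≤ 2 * Real.exp (lg t.v - lg t.u) := by
  have hu := h.bu.xpos
  have hv := h.bv.xpos
  have hz := h.bz.xpos
  have e : (t.v.x : ℝ) = br t.u t.z * t.u.x - t.z.x := by
    simp only [St.v, step]
    push_cast
    ring
  have hzv : (t.z.x : ℝ) ≤ t.v.x := by
    have h1 : 3 * t.z.x ≤ 2 * t.v.x := good_lt h.bz h.gzv
    have h2 : 3 * (t.z.x : ℝ) ≤ 2 * t.v.x := by exact_mod_cast h1
    linarith
  have e2 : (br t.u t.z : ℝ) = (t.v.x + t.z.x) / t.u.x := by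
    rw [eq_div_iff hu.ne']; linarith
  rw [e2, abs_of_pos (by positivity), Real.exp_sub, h.bv.exp_lg, h.bu.exp_lg, ← mul_div_assoc]
  apply div_le_div_of_nonneg_right _ hu.le
  linarith

/-- The choice of the constants. -/
theorem consts {Λ r : ℝ} (hΛ : 5 ≤ Λ) (hr : r < (2 * Λ - 1) / (Λ - 1)) :
    ∃ ε κ δ : ℝ, 0 < ε ∧ 0 < κ ∧ 0 < δ ∧ κ * (Λ - 1 + ε) = 1 ∧ r = 2 + κ - δ := by
  have hΛ1 : 0 < Λ - 1 := by linarith
  have e0 : (2 * Λ - 1) / (Λ - 1) = 2 + 1 / (Λ - 1) := by field_simp; ring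
  rw [e0] at hr
  obtain ⟨ε, hε, h⟩ : ∃ ε : ℝ, 0 < ε ∧ (r - 2) * (Λ - 1 + ε) < 1 := by
    by_cases hs : r - 2 ≤ 0
    · exact ⟨1, one_pos, by nlinarith⟩
    · push Not at hs
      have h1 : (r - 2) * (Λ - 1) < 1 := by
        rw [← lt_div_iff₀ hΛ1]; linarith
      refine ⟨(1 - (r - 2) * (Λ - 1)) / (2 * (r - 2)), by apply div_pos <;> linarith, ?_⟩
      have h2 : (r - 2) * (Λ - 1 + (1 - (r - 2) * (Λ - 1)) / (2 * (r - 2))) =
          (r - 2) * (Λ - 1) + (1 - (r - 2) * (Λ - 1)) / 2 := by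
        field_simp
      rw [h2]; linarith
  have hk : 0 < Λ - 1 + ε := by linarith
  refine ⟨ε, 1 / (Λ - 1 + ε), 2 + 1 / (Λ - 1 + ε) - r, hε, by positivity, ?_, ?_, by ring⟩
  · have : r - 2 < 1 / (Λ - 1 + ε) := by rwa [lt_div_iff₀ hk]
    linarith
  · field_simp

/-- The inequality at a new record. -/
theorem rec {Λ ε κ δ r A B C Y Z' : ℝ} (hκ : 0 < κ) (hk : κ * (Λ - 1 + ε) = 1) (hrd : r = 2 + κ - δ)
    (h1 : A ≤ (Λ + ε) * B) (hC : C ≤ δ * (A - B)) (hr : 0 ≤ r) (hY : Y ≤ A - B)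
    (hZ : 2 * A - B ≤ Z') : C + r * Y ≤ Z' := by
  have h2 : A - B ≤ (Λ - 1 + ε) * B := by linarith
  have h3 : κ * (A - B) ≤ B := by
    calc κ * (A - B) ≤ κ * ((Λ - 1 + ε) * B) := mul_le_mul_of_nonneg_left h2 hκ.le
      _ = B := by rw [← mul_assoc, hk, one_mul]
  have h4 : r * Y ≤ r * (A - B) := mul_le_mul_of_nonneg_left hY hr
  have h5 : r * (A - B) = 2 * (A - B) + κ * (A - B) - δ * (A - B) := by rw [hrd]; ring
  linarith

end ExLoAux

theorem ex_lo {T : ℕ → St} {op : ℕ → Op} {Λ : ℝ} (hΛ : 5 ≤ Λ) (h : Path T op) (l : Lim T op Λ)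
    (htr : Transcendental ℚ (xi T)) (r : ℝ) (hr0 : 0 ≤ r) (hr : r < (2 * Λ - 1) / (Λ - 1)) :
    ∃ X₀ : ℝ, ∀ X : ℝ, X₀ ≤ X → WnF.Appr 2 (xi T) r X ∧ PolAp 2 (xi T) r X := by
  obtain ⟨K, hK, hap⟩ := poly_ap
  obtain ⟨ε, κ, δ, hε, hκ, hδ, hk, hrd⟩ := ExLoAux.consts hΛ hr
  have hr94 : r ≤ 9 / 4 := by
    have h1 : (2 * Λ - 1) / (Λ - 1) ≤ 9 / 4 := by
      rw [div_le_iff₀ (by linarith)]; linarith
    linarith
  set L : ℝ := Real.log 2 with hLdef
  have hL : 0 < L := Real.log_pos (by norm_num)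
  set k : ℝ := Real.log K with hkdef
  have hk0 : 0 ≤ k := Real.log_nonneg hK
  have l10 : Real.log (0 + 10) ≤ Real.log 14 := Real.log_le_log (by norm_num) (by norm_num)
  have l12 : Real.log (2 + 10) ≤ Real.log 14 := Real.log_le_log (by norm_num) (by norm_num)
  have l14 : Real.log (4 + 10) ≤ Real.log 14 := Real.log_le_log (by norm_num) (by norm_num)
  have p14 : 0 < Real.log 14 := Real.log_pos (by norm_num)
  -- the constant
  obtain ⟨C, hC⟩ : ∃ C : ℝ, C = k + Real.log 14 + r * k + r * L + 2 * L := ⟨_, rfl⟩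
  have hrk : 0 ≤ r * k := mul_nonneg hr0 hk0
  have hrL : 0 ≤ r * L := mul_nonneg hr0 hL.le
  have hC0 : 0 < C := by rw [hC]; linarith
  have hev : ∀ᶠ n in atTop, max (4 * C) (C / δ) ≤ lg (T n).u - lg (T n).z :=
    l.t4.eventually_ge_atTop _
  obtain ⟨n0, hn0⟩ := ((hev.and (l.t1 ε hε)).and (l.t2 ε hε)).exists_forall_of_atTop
  refine ⟨max 1 (Real.exp (k + (lg (T n0).u - lg (T n0).z))), fun X hX => ?_⟩
  have hX1 : 1 ≤ X := (le_max_left _ _).trans hX
  have hXe : Real.exp (k + (lg (T n0).u - lg (T n0).z)) ≤ X := (le_max_right _ _).trans hX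
  have hX0 : 0 < X := by linarith
  have hlX : k + (lg (T n0).u - lg (T n0).z) ≤ Real.log X := by
    rw [Real.le_log_iff_exp_le hX0]; exact hXe
  obtain ⟨t, ht⟩ : ∃ t : ℝ, t = Real.log X - k := ⟨_, rfl⟩
  have hlt : Real.log X = t + k := by rw [ht]; ring
  obtain ⟨n, hn, hn1, hn2⟩ := first_passage (a := fun n => lg (T n).u - lg (T n).z) l.t4 n0 t
    (by rw [ht]; linarith)
  have hn1' : lg (T n).u - lg (T n).z ≤ t := hn1
  have hn2' : t < lg (T (n + 1)).u - lg (T (n + 1)).z := hn2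
  obtain ⟨⟨g0, g1⟩, g2⟩ := hn0 n hn
  obtain ⟨⟨g0', g1'⟩, -⟩ := hn0 (n + 1) (by omega)
  have a1 : 4 * C ≤ lg (T n).u - lg (T n).z := (le_max_left _ _).trans g0
  have a2 : C ≤ δ * (lg (T n).u - lg (T n).z) := by
    have := (le_max_right _ _).trans g0
    rwa [div_le_iff₀' hδ] at this
  have a2' : C ≤ δ * (lg (T (n + 1)).u - lg (T (n + 1)).z) := by
    have := (le_max_right _ _).trans g0'
    rwa [div_le_iff₀' hδ] at this
  have hi := h.inv n
  have hi' := h.inv (n + 1)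
  have lz := hi.bz.lg_pos
  have lW := hi.bW.lg_pos
  have hlv := hi.lv
  have hlX' := hi.lX
  have hWu := lg_lt hi.bW hi.gW
  have huv := lg_lt hi.bu hi.gv
  have hvX := lg_lt hi.bv hi.gX
  have det2 := ExLoAux.abs_det hi
  have hLC : L ≤ C := by rw [hC]; linarith
  have rt : r * Real.log X = r * t + r * k := by rw [hlt]; ring
  rcases ho : op n with _ | _ | _
  · -- A
    have e : T (n + 1) = ⟨(T n).v, (T n).u, (T n).W⟩ := by rw [h.st n, ho]; rfl
    rw [e] at hn2'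
    change t < lg (T n).v - lg (T n).u at hn2'
    refine ExLoAux.fin hK hap h.le_xi h.xi_le htr (h.app_z n) (h.app_u n) hi.gz (h.app_v n) hr0 hX1
      0 (lg (T n).u - lg (T n).z - lg (T n).v) le_rfl ?_ le_rfl (by linarith) (by linarith) ?_
    · rw [ExLoAux.det_zuv]; simp
    · have h3 : r * t ≤ r * (lg (T n).u - lg (T n).z + L) :=
        mul_le_mul_of_nonneg_left (by linarith) hr0
      have h4 : r * (lg (T n).u - lg (T n).z) ≤ 9 / 4 * (lg (T n).u - lg (T n).z) :=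
        mul_le_mul_of_nonneg_right hr94 (by linarith)
      have h5 : r * (lg (T n).u - lg (T n).z + L) = r * (lg (T n).u - lg (T n).z) + r * L := by ring
      rw [rt]
      linarith
  · -- J
    have e : T (n + 1) = ⟨(T n).v, (T n).W, (T n).u⟩ := by rw [h.st n, ho]; rfl
    have ev : (T (n + 1)).v = step (T n).v (T n).W := by rw [e]; rfl
    have aX : App (xi T) (step (T n).v (T n).W) := by rw [← ev]; exact h.app_v (n + 1)
    rw [e] at hn2' g1' a2'
    change t < lg (T n).v - lg (T n).W at hn2'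
    change lg (T n).v ≤ (Λ + ε) * lg (T n).W at g1'
    change C ≤ δ * (lg (T n).v - lg (T n).W) at a2'
    refine ExLoAux.fin hK hap h.le_xi h.xi_le htr (h.app_z n) (h.app_u n) hi.gz aX hr0 hX1
      2 0 (by norm_num) ?_ (by linarith) (by linarith) (by linarith) ?_
    · rw [ExLoAux.det_zuX]; push_cast; rw [abs_neg, det2]; simp
    · have h3 := ExLoAux.rec (Z' := lg (step (T n).v (T n).W)) hκ hk hrd g1' a2' hr0 hn2'.le
        hlX'.1
      rw [rt]
      linarith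
  · -- K
    have e : T (n + 1) = ⟨step (T n).v (T n).W, (T n).z, (T n).u⟩ := by rw [h.st n, ho]; rfl
    have eu : (T (n + 1)).u = step (T n).v (T n).W := by rw [e]
    have ev : (T (n + 1)).v = step (step (T n).v (T n).W) (T n).z := by rw [e]; rfl
    have aX : App (xi T) (step (T n).v (T n).W) := by rw [← eu]; exact h.app_u (n + 1)
    have av' : App (xi T) (step (step (T n).v (T n).W) (T n).z) := by
      rw [← ev]; exact h.app_v (n + 1)
    have hlv' := hi'.lv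
    rw [ev] at hlv'
    rw [e] at hn2' g1' a2' hlv'
    change t < lg (step (T n).v (T n).W) - lg (T n).z at hn2'
    change lg (step (T n).v (T n).W) ≤ (Λ + ε) * lg (T n).z at g1'
    change C ≤ δ * (lg (step (T n).v (T n).W) - lg (T n).z) at a2'
    change 2 * lg (step (T n).v (T n).W) - lg (T n).z ≤
      lg (step (step (T n).v (T n).W) (T n).z) ∧ _ at hlv'
    rcases lt_or_ge t (lg (T n).v - lg (T n).W) with ht1 | ht1
    · have a3 : C ≤ δ * (lg (T n).v - lg (T n).W) :=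
        a2.trans (mul_le_mul_of_nonneg_left (by linarith) hδ.le)
      refine ExLoAux.fin hK hap h.le_xi h.xi_le htr (h.app_z n) (h.app_u n) hi.gz aX hr0 hX1
        2 0 (by norm_num) ?_ (by linarith) (by linarith) (by linarith) ?_
      · rw [ExLoAux.det_zuX]; push_cast; rw [abs_neg, det2]; simp
      · have h3 := ExLoAux.rec (Z' := lg (step (T n).v (T n).W)) hκ hk hrd (g2 ho) a3 hr0 ht1.le
          hlX'.1
        rw [rt]
        linarith
    · rcases lt_or_ge t (lg (step (T n).v (T n).W) - lg (T n).u) with ht2 | ht2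
      · refine ExLoAux.fin hK hap h.le_xi h.xi_le htr (h.app_W n) (h.app_v n) hi.gWv av' hr0 hX1
          4 (lg (T n).v - lg (T n).u) (by norm_num) ?_ (by linarith) (by linarith) (by linarith) ?_
        · rw [ExLoAux.det_Wvv]
          push_cast
          rw [abs_mul, det2]
          have := ExLoAux.br_le hi
          linarith
        · have h3 : r * t ≤ r * (lg (step (T n).v (T n).W) - lg (T n).u) :=
            mul_le_mul_of_nonneg_left ht2.le hr0
          have h4 : r * (lg (step (T n).v (T n).W) - lg (T n).u) ≤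
              9 / 4 * (lg (step (T n).v (T n).W) - lg (T n).u) :=
            mul_le_mul_of_nonneg_right hr94 (by linarith)
          rw [rt]
          linarith
      · refine ExLoAux.fin hK hap h.le_xi h.xi_le htr (h.app_u n) aX
          (good_trans hi.bv hi.gv hi.gX) av' hr0 hX1
          2 0 (by norm_num) ?_ (by linarith) (by linarith) (by linarith) ?_
        · rw [ExLoAux.det_uXv, det2]; simp
        · have h3 := ExLoAux.rec (Z' := lg (step (step (T n).v (T n).W) (T n).z)) hκ hk hrd g1' a2'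
            hr0 hn2'.le hlv'.1
          rw [rt]
          linarith

end Pool.Agent.D6
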