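import Pool.Agent.Lib.D6.Geo

/-!
# Different continuations give different limits
-/

set_option autoImplicit false

namespace Pool.Agent.D6

theorem xi_ne {T T' : ℕ → St} {op op' : ℕ → Op} (h : Path T op) (h' : Path T' op') (N : ℕ)
    (e : T N = T' N) (o : op N = Op.A) (o' : op' N = Op.K)
    (c1 : 40 * (T N).W.x ≤ (T N).u.x) (c2 : 60 * (T N).u.x ≤ (T N).v.x) : xi T ≠ xi T' := by
  intro hxi
  set t := T N with ht
  have hi : Inv t := h.inv N
  have e1 : T (N + 1) = ⟨t.v, t.u, t.W⟩ := by rw [h.st N, o]; rfl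
  have e2 : T' (N + 1) = ⟨step t.v t.W, t.z, t.u⟩ := by rw [h'.st N, o', ← e]; rfl
  -- the point `y = step v u`
  have hy : App (xi T') (step t.v t.u) := by
    have := h.app_v (N + 1)
    rw [e1, hxi] at this
    exact this
  have hv : App (xi T') t.v := by
    have := h'.app_v N
    rw [← e] at this
    exact this
  have hX : App (xi T') (step t.v t.W) := by
    have := h'.app_u (N + 1)
    rw [e2] at this
    exact this
  have hJ : Inv (ap Op.J t) := inv_ap Op.J hi
  have h1 := h'.le_xi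
  have h2 := h'.xi_le
  have s1 := step_size hi.bv hi.bu hi.gv
  have s2 := step_size hi.bv hi.bW hi.gWv
  have pu := hi.bu.xpos
  have pv := hi.bv.xpos
  have pW := hi.bW.xpos
  have py := hy.xpos
  have pX := hX.xpos
  have s1a : (t.v.x : ℝ) ^ 2 ≤ t.u.x * (step t.v t.u).x := by exact_mod_cast s1.1
  have s1b : (t.u.x : ℝ) * (step t.v t.u).x ≤ 2 * (t.v.x : ℝ) ^ 2 := by exact_mod_cast s1.2
  have s2a : (t.v.x : ℝ) ^ 2 ≤ t.W.x * (step t.v t.W).x := by exact_mod_cast s2.1
  have c1' : 40 * (t.W.x : ℝ) ≤ t.u.x := by exact_mod_cast c1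
  have c2' : 60 * (t.u.x : ℝ) ≤ t.v.x := by exact_mod_cast c2
  -- `y.x ≤ X'.x / 20`
  have k1 : ((step t.v t.u).x : ℝ) ≤ (step t.v t.W).x / 20 := by
    have a1 : (t.u.x : ℝ) * (step t.v t.u).x ≤ 2 * (t.W.x * (step t.v t.W).x) := by linarith
    have a2 : 40 * (t.W.x : ℝ) * (step t.v t.u).x ≤ t.u.x * (step t.v t.u).x := by
      apply mul_le_mul_of_nonneg_right c1' py.le
    have a3 : (t.W.x : ℝ) * (20 * (step t.v t.u).x) ≤ t.W.x * (step t.v t.W).x := by linarith
    have a4 := le_of_mul_le_mul_left a3 pW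
    linarith
  -- `y.x ≥ 60 v.x`
  have k2 : 60 * (t.v.x : ℝ) ≤ (step t.v t.u).x := by
    have a1 : (t.u.x : ℝ) * (60 * t.v.x) ≤ t.u.x * (step t.v t.u).x := by nlinarith
    exact le_of_mul_le_mul_left a1 pu
  have hyx : (0 : ℤ) < (step t.v t.u).x := by exact_mod_cast py
  refine lam_lower (ξ := xi T') h1 h2 hJ hv hX (step t.v t.u).x (step t.v t.u).y (step t.v t.u).z
    (by omega) ?_ ?_ ?_
  · rw [abs_of_pos py]; exact k1
  · refine hy.a_abs.trans ?_
    change 2 / ((step t.v t.u).x : ℝ) ≤ 1 / (20 * (t.v.x : ℝ))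
    rw [div_le_div_iff₀ py (by positivity)]
    linarith
  · refine (hy.b_abs h1 h2).trans ?_
    change 3 / ((step t.v t.u).x : ℝ) ≤ 1 / (20 * (t.v.x : ℝ))
    rw [div_le_div_iff₀ py (by positivity)]
    linarith

end Pool.Agent.D6
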