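import Pool.Agent.Lib.D6.Brg
import Pool.Agent.Lib.D6.Inj
import Pool.Agent.Lib.D6.DynC
import Pool.Agent.Lib.D6.ExLam
import Pool.Agent.Lib.D6.ExUp
import Pool.Agent.Lib.D6.ExLo

/-!
# Assembly
-/

set_option autoImplicit false

open Filter Topology

namespace Pool.Agent.D6

/-- The initial state. -/
def s0 : St := ⟨⟨73, 46, 29⟩, ⟨2, 1, 1⟩, ⟨5, 3, 2⟩⟩

theorem inv_s0 : Inv s0 := by
  refine ⟨⟨?_, ?_, ?_, ?_, ?_, ?_⟩, ⟨?_, ?_, ?_, ?_, ?_, ?_⟩, ⟨?_, ?_, ?_, ?_, ?_, ?_⟩,
    ⟨?_, ?_, ?_, ?_, ?_, ?_⟩, ⟨?_, ?_, ?_, ?_, ?_, ?_⟩, ?_⟩ <;>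
  norm_num [s0, al, be, ga, de, det3]

theorem zW_s0 : lg s0.z ≤ lg s0.W := by
  unfold lg
  apply Real.log_le_log
  · norm_num [s0]
  · norm_num [s0]

theorem g_s0 : (3 : ℝ) ≤ lg s0.u - lg s0.z := by
  have e : lg s0.u - lg s0.z = Real.log (73 / 2) := by
    unfold lg
    rw [Real.log_div (by norm_num) (by norm_num)]
    norm_num [s0]
  rw [e, Real.le_log_iff_exp_le (by norm_num)]
  have h1 := Real.exp_one_lt_d9
  have h2 : Real.exp 3 = Real.exp 1 ^ 3 := by
    rw [← Real.exp_nat_mul]; norm_num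
  rw [h2]
  have h3 : Real.exp 1 ^ 3 ≤ 2.7182818286 ^ 3 := by
    apply pow_le_pow_left₀ (Real.exp_pos 1).le h1.le
  refine h3.trans ?_
  norm_num

/-- The pads. -/
def pad (ω : ℕ → Bool) (n : ℕ) : ℕ := if ω (n - 1) then 7 else 6

theorem pad_or (ω : ℕ → Bool) (n : ℕ) : pad ω n = 6 ∨ pad ω n = 7 := by
  unfold pad
  split_ifs
  · exact Or.inr rfl
  · exact Or.inl rfl

variable {σ : ℝ} {b : ℕ → ℕ} {φ : ℕ → ℝ}

theorem lim_of_game (hσ : 0 < σ) (hσ1 : σ ≤ 1 / 36) (g : GameData σ b φ) (ω : ℕ → Bool) :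
    Lim (pth (digit b (pad ω)) s0) (pop (digit b (pad ω))) (1 + 1 / σ) := by
  have hd := digit_le g (pad_or ω)
  have hdyn := dyn_blk hd inv_s0 zW_s0
  have hΛ : 37 ≤ 1 + 1 / σ := by
    have : 36 ≤ 1 / σ := by
      rw [le_div_iff₀ hσ]
      linarith
    linarith
  refine lim_pth inv_s0 zW_s0 hd hΛ ?_ ?_ ?_
  · intro ε hε
    have := dyn_t1 hσ hσ1 g (pad_or ω) hdyn ε hε
    filter_upwards [this] with i hi
    have e : 1 + 1 / σ - 1 + ε = 1 / σ + ε := by ring
    rw [e]; exact hi
  · have := dyn_t2 g (pad_or ω) hdyn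
    filter_upwards [this] with i hi
    have e : lg (blk (digit b (pad ω)) s0 i).z +
      (lg (blk (digit b (pad ω)) s0 i).W - lg (blk (digit b (pad ω)) s0 i).z) =
      lg (blk (digit b (pad ω)) s0 i).W := by ring
    rw [e] at hi
    exact hi
  · intro ε hε
    have := dyn_t3 hσ g hdyn ε hε
    refine this.mono fun i hi => ?_
    have e : 1 + 1 / σ - 1 - ε = 1 / σ - ε := by ring
    rw [e]; exact hi

/-- The times of the pads. -/
theorem mach_pad (n : ℕ) : ∃ i, 1 ≤ i ∧ mach i = (n + 1, n + 2) := by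
  obtain ⟨i, _, hi⟩ := mach_zero n
  refine ⟨i + 1, by omega, ?_⟩
  rw [mach, hi]
  simp

theorem mach_inj_fst : Monotone fun i => (mach i).1 := by
  apply monotone_nat_of_le_succ
  intro i
  change (mach i).1 ≤ (mach (i + 1)).1
  rw [mach]
  split_ifs
  · exact Nat.le_succ _
  · exact le_rfl

/-- The pad of a block occurs before any other time of the block. -/
theorem mach_before {n i k : ℕ} (hi : mach i = (n + 1, n + 2)) (hk : k < i) : (mach k).1 ≤ n := by
  have h1 : (mach k).1 ≤ (mach (i - 1)).1 := mach_inj_fst (by omega)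
  obtain ⟨j, rfl⟩ : ∃ j, i = j + 1 := ⟨i - 1, by omega⟩
  rw [mach] at hi
  simp only [Nat.add_sub_cancel] at h1
  have h2 := mach_inv j
  split_ifs at hi with h3
  · have := congrArg Prod.fst hi
    simp only at this
    omega
  · have e1 := congrArg Prod.fst hi
    have e2 := congrArg Prod.snd hi
    simp only at e1 e2
    omega

theorem ne_of_lt (g : GameData σ b φ) (ω ω' : ℕ → Bool) (m : ℕ) (h : ∀ k, k < m → ω k = ω' k)
    (h1 : ω m = false) (h2 : ω' m = true) :
    xi (pth (digit b (pad ω)) s0) ≠ xi (pth (digit b (pad ω')) s0) := by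
  obtain ⟨i, hi1, hi⟩ := mach_pad m
  have hsame : ∀ k, k < i → digit b (pad ω) k = digit b (pad ω') k := by
    intro k hk
    have h3 := mach_before hi hk
    unfold digit
    split_ifs with h4
    · unfold pad
      rcases Nat.eq_zero_or_pos (mach k).1 with h5 | h5
      · -- block 0 has no pad
        exfalso
        have h6 : (mach k).2 = 1 := by omega
        rcases k with _ | k
        · simp [mach] at h6
        · have h7 : 1 ≤ (mach (k + 1)).1 := by
            have : (mach 1).1 ≤ (mach (k + 1)).1 := mach_inj_fst (by omega)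
            have e : (mach 1).1 = 1 := by simp [mach]
            omega
          omega
      · rw [h ((mach k).1 - 1) (by omega)]
    · rfl
  have hd := digit_le g (pad_or ω)
  have hd' := digit_le g (pad_or ω')
  have e1 : digit b (pad ω) i = 6 := by
    unfold digit pad; rw [hi]; simp [h1]
  have e2 : digit b (pad ω') i = 7 := by
    unfold digit pad; rw [hi]; simp [h2]
  obtain ⟨n, n1, n2⟩ := pm_congr i hsame
  have p1 := pm_off _ n i n1 6 (by rw [e1])
  have p2 := pm_off _ n i n2 6 (by rw [e2]; omega)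
  have hb := blk_congr s0 i hsame
  have hp := path_pth (digit b (pad ω)) inv_s0
  have hp' := path_pth (digit b (pad ω')) inv_s0
  have eT : pth (digit b (pad ω')) s0 (n + 6) = rn (blk (digit b (pad ω)) s0 i) 6 := by
    unfold pth; rw [p2, hb]
  have eT' : pth (digit b (pad ω)) s0 (n + 6) = rn (blk (digit b (pad ω)) s0 i) 6 := by
    unfold pth; rw [p1]
  have o : pop (digit b (pad ω')) (n + 6) = Op.A := by
    unfold pop; rw [p2]; simp [e2]
  have o' : pop (digit b (pad ω)) (n + 6) = Op.K := by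
    unfold pop; rw [p1]; simp [e1]
  have hinv := blk_inv (d := digit b (pad ω)) inv_s0 i
  have hdyn := dyn_blk hd inv_s0 zW_s0
  have hG : (9 : ℝ) ≤ lg (blk (digit b (pad ω)) s0 i).u - lg (blk (digit b (pad ω)) s0 i).z := by
    have a1 := hdyn.mono hi1
    have a2 := hdyn.growth 0
    have a3 : (3:ℝ) ≤ lg (blk (digit b (pad ω)) s0 0).u - lg (blk (digit b (pad ω)) s0 0).z := g_s0
    linarith
  set t := blk (digit b (pad ω)) s0 i with ht
  have q1 := gap hinv 6
  have q2 := size hinv 6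
  have q3 := rn_inv hinv 6
  have q4 := q3.lv
  have q5 := lg_lt hinv.bW hinv.gW
  have lexp : Real.log 60 ≤ 5 := by
    rw [Real.log_le_iff_le_exp (by norm_num)]
    have h1 := Real.exp_one_gt_d9
    have h2 : Real.exp 5 = Real.exp 1 ^ 5 := by
      rw [← Real.exp_nat_mul]; norm_num
    rw [h2]
    have h3 : (2.7 : ℝ) ^ 5 ≤ Real.exp 1 ^ 5 := by
      apply pow_le_pow_left₀ (by norm_num) (by linarith)
    refine le_trans ?_ h3
    norm_num
  have lexp4 : Real.log 40 ≤ Real.log 60 := Real.log_le_log (by norm_num) (by norm_num)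
  refine (xi_ne hp' hp (n + 6) (by rw [eT, eT']) o o' ?_ ?_).symm
  · rw [eT, rn_W]
    have hx := hinv.bW.xpos
    have hx2 := q3.bu.xpos
    have : Real.log (40 * (t.W.x : ℝ)) ≤ Real.log ((rn t 6).u.x : ℝ) := by
      rw [Real.log_mul (by norm_num) hx.ne']
      change Real.log 40 + lg t.W ≤ lg (rn t 6).u
      have : (((6:ℕ) : ℝ)) = 6 := by norm_num
      rw [this] at q2
      linarith [q1.1, q2.1]
    have := (Real.log_le_log_iff (by positivity) hx2).1 this
    exact_mod_cast this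
  · rw [eT]
    have hx := q3.bu.xpos
    have hx2 := q3.bv.xpos
    have : Real.log (60 * ((rn t 6).u.x : ℝ)) ≤ Real.log ((rn t 6).v.x : ℝ) := by
      rw [Real.log_mul (by norm_num) hx.ne']
      change Real.log 60 + lg (rn t 6).u ≤ lg (rn t 6).v
      linarith [q1.1, q4.1]
    have := (Real.log_le_log_iff (by positivity) hx2).1 this
    exact_mod_cast this

theorem xi_inj (g : GameData σ b φ) :
    Function.Injective fun ω : ℕ → Bool => xi (pth (digit b (pad ω)) s0) := by
  intro ω ω' he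
  by_contra hne
  have hex : ∃ m, ω m ≠ ω' m := by
    by_contra h
    push Not at h
    exact hne (funext h)
  classical
  have h1 := Nat.find_spec hex
  have h2 : ∀ k, k < Nat.find hex → ω k = ω' k := fun k hk => by
    have := Nat.find_min hex hk
    push Not at this
    exact this
  generalize Nat.find hex = m at h1 h2
  rcases hb : ω m with _ | _
  · have hb' : ω' m = true := by
      rw [hb] at h1
      rcases h3 : ω' m with _ | _
      · rw [h3] at h1; exact absurd rfl h1
      · rfl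
    exact ne_of_lt g ω ω' m h2 hb hb' he
  · have hb' : ω' m = false := by
      rw [hb] at h1
      rcases h3 : ω' m with _ | _
      · rfl
      · rw [h3] at h1; exact absurd rfl h1
    exact ne_of_lt g ω' ω m (fun k hk => (h2 k hk).symm) hb' hb he.symm

theorem exists_transcendental (g : GameData σ b φ) :
    ∃ ω : ℕ → Bool, Transcendental ℚ (xi (pth (digit b (pad ω)) s0)) := by
  by_contra hcon
  push Not at hcon
  have hc : {x : ℝ | IsAlgebraic ℚ x}.Countable := Algebraic.countable ℚ ℝ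
  have h1 : (Set.range fun ω : ℕ → Bool => xi (pth (digit b (pad ω)) s0)).Countable := by
    refine hc.mono ?_
    rintro _ ⟨ω, rfl⟩
    have := hcon ω
    unfold Transcendental at this
    push Not at this
    exact this
  have h2 : (Set.univ : Set (ℕ → Bool)).Countable := by
    have h3 := Set.countable_of_injective_of_countable_image (s := Set.univ)
      (f := fun ω : ℕ → Bool => xi (pth (digit b (pad ω)) s0)) (xi_inj g).injOn
    rw [Set.image_univ] at h3
    exact h3 h1
  have h4 : Uncountable (ℕ → Bool) := by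
    rw [← Cardinal.aleph0_lt_mk_iff]
    simp [Cardinal.aleph0_lt_continuum]
  exact Set.not_countable_univ h2

theorem main (Λ : ℝ) (hΛ : 37 ≤ Λ) : ∃ ξ : ℝ, Transcendental ℚ ξ ∧
    hlam 2 ξ = ((Λ / (2 * Λ - 1) : ℝ) : EReal) ∧
    hwn 2 ξ = (((2 * Λ - 1) / (Λ - 1) : ℝ) : EReal) ∧
    WnF.hws 2 ξ = (((2 * Λ - 1) / (Λ - 1) : ℝ) : EReal) := by
  have hσ : 0 < 1 / (Λ - 1) := by
    have : 0 < Λ - 1 := by linarith
    positivity
  have hσ1 : 1 / (Λ - 1) ≤ 1 / 36 := one_div_le_one_div_of_le (by norm_num) (by linarith)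
  obtain ⟨b, φ, g⟩ := game _ hσ hσ1
  obtain ⟨ω, hω⟩ := exists_transcendental g
  have l := lim_of_game hσ hσ1 g ω
  have e : 1 + 1 / (1 / (Λ - 1)) = Λ := by rw [one_div_one_div]; ring
  rw [e] at l
  have hp := path_pth (digit b (pad ω)) inv_s0
  refine ⟨_, hω, hlam_eq (by linarith) hp l, ?_, ?_⟩
  · apply le_antisymm (hwn_le (by linarith) hp l)
    by_contra hcon
    rw [not_le] at hcon
    obtain ⟨v, hv1, hv2⟩ := EReal.lt_iff_exists_real_btwn.1 hcon
    rw [EReal.coe_lt_coe_iff] at hv2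
    have hpos : 0 < (2 * Λ - 1) / (Λ - 1) := by
      apply div_pos <;> linarith
    have hm : max v 0 < (2 * Λ - 1) / (Λ - 1) := max_lt hv2 hpos
    obtain ⟨X₀, hX⟩ := ex_lo (by linarith) hp l hω (max v 0) (le_max_right _ _) hm
    have hmem : ((max v 0 : ℝ) : EReal) ≤ hwn 2 (xi (pth (digit b (pad ω)) s0)) :=
      le_sSup ⟨max v 0, rfl, X₀, fun X h => (hX X h).2⟩
    have h5 : (v : EReal) ≤ ((max v 0 : ℝ) : EReal) := EReal.coe_le_coe_iff.2 (le_max_left _ _)
    exact absurd (h5.trans hmem) (not_le.2 hv1)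
  · apply le_antisymm (hws_le' (by linarith) hp l)
    by_contra hcon
    rw [not_le] at hcon
    obtain ⟨v, hv1, hv2⟩ := EReal.lt_iff_exists_real_btwn.1 hcon
    rw [EReal.coe_lt_coe_iff] at hv2
    have hpos : 0 < (2 * Λ - 1) / (Λ - 1) := by
      apply div_pos <;> linarith
    have hm : max v 0 < (2 * Λ - 1) / (Λ - 1) := max_lt hv2 hpos
    obtain ⟨X₀, hX⟩ := ex_lo (by linarith) hp l hω (max v 0) (le_max_right _ _) hm
    have hmem : ((max v 0 : ℝ) : EReal) ≤ WnF.hws 2 (xi (pth (digit b (pad ω)) s0)) :=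
      le_sSup ⟨max v 0, rfl, X₀, fun X h => (hX X h).1⟩
    have h5 : (v : EReal) ≤ ((max v 0 : ℝ) : EReal) := EReal.coe_le_coe_iff.2 (le_max_left _ _)
    exact absurd (h5.trans hmem) (not_le.2 hv1)

end Pool.Agent.D6
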