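import Mathlib

/-!
# The digits (a greedy expansion)

PROOF of `game`.  Put `c = 1/9`.  Define the pairs `(u_j, v_j) = (φ j, φ (j+1))`, `(u_0, v_0) = (1, 1 - σ)` and the
digits greedily: `b (j+1)` is the least natural number `d` with `(d + 4) v_j - u_j - 2 ≥ c` (exists because `v_j > 0`;
e.g. `Nat.find` or `Nat.ceil`), `v_{j+1} = (d + 4) v_j - u_j - 2`, `u_{j+1} = v_j`, `b 0 = 1`.  Write `(u, v)`, `d`,
`v' = (d+4) v - u - 2` and let `k` be the digit chosen at `(v, v')`.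

INVARIANT of the pairs: `1/9 ≤ v`, `v ≤ u + 1/9`, and
  (P) `v ≤ u`, `u ≤ 1`, and (`u ≤ (3 + v)/4` or (`u = 1`, first pair)),   or
  (S) `u ≤ 29/33`, `v ≤ 29/33` (in fact `v < 29/33`, needed for no two consecutive zeros).
If `d = 0`: `v' = 4 v - u - 2 ≥ c`; `v' ≤ v` in case (P) (`3v ≤ 2 + u`), `v ≤ (3 + v')/4` iff `u ≤ 1`: the next pair is (P).
  In case (S): `v' ≤ 3 v + 1/9 - 2 ≤ v + 1/9` and `v' < 29/33`: the next pair is (S).
If `d ≥ 1`: by minimality `(d+3) v - u - 2 < c`, so `v' < v + 1/9`, and `4 v - u - 2 < 1/9`.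
  (P): `u ≤ (3+v)/4` gives `v < (11 + 4/9)/15 < 0.763`, so `v' < 118/135 < 29/33` and `v < 29/33`: next pair is (S).
  (The first pair `(1, 1 - σ)` has digit 0: `4 (1 - σ) - 3 ≥ 1/9` since `σ ≤ 1/36`.)
  (S): `4 v < 2 + 1/9 + u ≤ 2.99`, `v < 0.7475`, `v' < 0.859 < 29/33`: next pair is (S).
NO TWO CONSECUTIVE ZEROS from a pair of type (S): `v' = 4v - u - 2` and `4 v' - v - 2 ≥ 1/9`, `u ≥ v - 1/9` would give
  `11 v ≥ 10 - 1/3`, `v ≥ 29/33`, contradiction.  Hence if `b (j+1) = b (j+2) = 0` then the pair `(u_j, v_j)` (at which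
  `b (j+1)` is chosen) is not (S), so all the previous digits are `0` (once (S), always (S)).
DIGITS `≤ 23` and the inequality `7 ((d+2)(k+4) + k) ≤ 256 (k+1)` for `d = b (j)`, `k = b (j+1)`, `j ≥ 1`:
  for `d ≥ 8` we have `2 + u + 1/9 < 2.99` (case (S): `u < 29/33 = 0.87879`, `2 + 1/9 + 29/33 = 296/99 = 2.9899`; case (P):
  `11 v ≤ (d+3) v < 2 + 1/9 + (3+v)/4`, so `v < 0.2662`, `u < 0.817`).  So `(d + 3) v < 296/99`; with `v ≥ 1/9`: `d + 3 < 26.91`,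
  `d ≤ 23`.  `(k+4) v' ≥ 2 + v + 1/9` and `v' < v + 1/9` give `k + 4 > 1 + 2/(v + 1/9)`.
  `d ≤ 7`: trivial for every `k ≥ 0` (`7 (9 (k+4) + k) = 70 k + 252 ≤ 256 (k + 1)`).
  `8 ≤ d ≤ 18`: `v < 0.2719`, `k + 4 > 6.2`, `k ≥ 3`: `7 (20 (k+4) + k) = 147 k + 560 ≤ 256 k + 256` iff `k ≥ 304/109`.
  `19 ≤ d ≤ 23`: `22 v < 2.99`, `v < 0.1360`, `k + 4 > 9.09`, `k ≥ 6`: `7 (25 (k+4) + k) = 182 k + 700 ≤ 256 k + 256` iff `k ≥ 6`.
  `j = 0`: `b 0 = 1`, `7 (3 (k+4) + k) = 28 k + 84 ≤ 256 (k+1)`.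
-/

set_option autoImplicit false

namespace Pool.Agent.D6

/-- The data of the digits. -/
structure GameData (σ : ℝ) (b : ℕ → ℕ) (φ : ℕ → ℝ) : Prop where
  b0 : b 0 = 1
  f0 : φ 0 = 1
  f1 : φ 1 = 1 - σ
  st : ∀ j, φ (j + 2) = (b (j + 1) + 4) * φ (j + 1) - φ j - 2
  lo : ∀ j, 0 ≤ φ j
  hi : ∀ j, φ j ≤ 1
  bd : ∀ j, b j ≤ 23
  pr : ∀ j, 7 * ((b j + 2) * (b (j + 1) + 4) + b (j + 1)) ≤ 256 * (b (j + 1) + 1)
  zz : ∀ j, b (j + 1) = 0 → b (j + 2) = 0 → ∀ l, 1 ≤ l → l ≤ j → b l = 0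

namespace GameAux

/-- the greedy digit -/
noncomputable def dig (u v : ℝ) : ℕ := ⌈(u + 19 / 9) / v - 4⌉₊

theorem dig1 {u v : ℝ} (hv : 0 < v) : 1 / 9 ≤ ((dig u v : ℝ) + 4) * v - u - 2 := by
  have h := Nat.le_ceil ((u + 19 / 9) / v - 4)
  have h1 : (u + 19 / 9) / v ≤ (dig u v : ℝ) + 4 := by
    unfold dig
    linarith
  rw [div_le_iff₀ hv] at h1
  linarith

theorem dig2 {u v : ℝ} (hv : 0 < v) (h0 : dig u v ≠ 0) :
    ((dig u v : ℝ) + 3) * v - u - 2 < 1 / 9 := by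
  have h2 : 0 < dig u v := Nat.pos_of_ne_zero h0
  have h3 : 0 < (u + 19 / 9) / v - 4 := Nat.ceil_pos.1 h2
  have h := Nat.ceil_lt_add_one h3.le
  have h1 : (dig u v : ℝ) + 3 < (u + 19 / 9) / v := by
    unfold dig
    linarith
  rw [lt_div_iff₀ hv] at h1
  linarith

/-- the next value -/
noncomputable def nx (u v : ℝ) : ℝ := ((dig u v : ℝ) + 4) * v - u - 2

/-- first type -/
def T0 (u v : ℝ) : Prop := u = 1 ∧ 35 / 36 ≤ v ∧ v ≤ 1

/-- second type -/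
def TP (u v : ℝ) : Prop := 1 / 9 ≤ v ∧ v ≤ u ∧ u ≤ 1 ∧ u ≤ (3 + v) / 4

/-- third type -/
def TS (u v : ℝ) : Prop := 1 / 9 ≤ v ∧ v ≤ u + 1 / 9 ∧ u ≤ 29 / 33 ∧ v < 29 / 33

theorem T0.dig {u v : ℝ} (h : T0 u v) : dig u v = 0 := by
  obtain ⟨h1, h2, h3⟩ := h
  by_contra h0
  have h4 := dig2 (u := u) (v := v) (by linarith) h0
  have h5 : (1 : ℝ) ≤ GameAux.dig u v := by
    exact_mod_cast Nat.pos_of_ne_zero h0
  nlinarith

theorem T0.next {u v : ℝ} (h : T0 u v) : TP v (nx u v) := by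
  have h0 := h.dig
  have h9 := dig1 (u := u) (v := v) (by linarith [h.2.1])
  obtain ⟨h1, h2, h3⟩ := h
  unfold nx
  rw [h0] at h9 ⊢
  simp only [Nat.cast_zero, zero_add] at h9 ⊢
  refine ⟨h9, ?_, h3, ?_⟩
  · linarith
  · linarith

theorem TP.next0 {u v : ℝ} (h : TP u v) (h0 : dig u v = 0) : TP v (nx u v) := by
  obtain ⟨h1, h2, h3, h4⟩ := h
  have h9 := dig1 (u := u) (v := v) (by linarith)
  unfold nx
  rw [h0] at h9 ⊢
  simp only [Nat.cast_zero, zero_add] at h9 ⊢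
  refine ⟨h9, ?_, ?_, ?_⟩ <;> linarith

theorem TP.next1 {u v : ℝ} (h : TP u v) (h0 : dig u v ≠ 0) : TS v (nx u v) := by
  obtain ⟨h1, h2, h3, h4⟩ := h
  have h9 := dig1 (u := u) (v := v) (by linarith)
  have h8 := dig2 (u := u) (v := v) (by linarith) h0
  have h5 : (1 : ℝ) ≤ dig u v := by
    exact_mod_cast Nat.pos_of_ne_zero h0
  have h6 : 4 * v ≤ ((dig u v : ℝ) + 3) * v := by nlinarith
  unfold nx
  refine ⟨h9, ?_, ?_, ?_⟩ <;> linarith

theorem TS.next {u v : ℝ} (h : TS u v) : TS v (nx u v) := by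
  obtain ⟨h1, h2, h3, h4⟩ := h
  have h9 := dig1 (u := u) (v := v) (by linarith)
  by_cases h0 : dig u v = 0
  · unfold nx
    rw [h0] at h9 ⊢
    simp only [Nat.cast_zero, zero_add] at h9 ⊢
    refine ⟨h9, ?_, ?_, ?_⟩ <;> linarith
  · have h8 := dig2 (u := u) (v := v) (by linarith) h0
    have h5 : (1 : ℝ) ≤ dig u v := by
      exact_mod_cast Nat.pos_of_ne_zero h0
    have h6 : 4 * v ≤ ((dig u v : ℝ) + 3) * v := by nlinarith
    unfold nx
    refine ⟨h9, ?_, ?_, ?_⟩ <;> linarith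

theorem TS.not_zz {u v : ℝ} (h : TS u v) (h0 : dig u v = 0) (h1 : dig v (nx u v) = 0) : False := by
  have hn := h.next
  have h9 := dig1 (u := v) (v := nx u v) (by linarith [hn.1])
  rw [h1] at h9
  unfold nx at h9
  rw [h0] at h9
  simp only [Nat.cast_zero, zero_add] at h9
  obtain ⟨h1, h2, h3, h4⟩ := h
  linarith

/-- the bound `(d + 3) v < 296 / 99` -/
theorem bnd {u v : ℝ} (h : TP u v ∨ TS u v) (h0 : dig u v ≠ 0) :
    ((dig u v : ℝ) + 11 / 4) * v < 103 / 36 ∨ ((dig u v : ℝ) + 3) * v < 296 / 99 := by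
  rcases h with ⟨h1, h2, h3, h4⟩ | ⟨h1, h2, h3, h4⟩
  · left
    have h8 := dig2 (u := u) (v := v) (by linarith) h0
    linarith
  · right
    have h8 := dig2 (u := u) (v := v) (by linarith) h0
    linarith

theorem low {u v : ℝ} (h : T0 u v ∨ TP u v ∨ TS u v) : 1 / 9 ≤ v := by
  rcases h with ⟨h1, h2, h3⟩ | ⟨h1, h2, h3, h4⟩ | ⟨h1, h2, h3, h4⟩ <;> linarith

theorem dig_le {u v : ℝ} (h : T0 u v ∨ TP u v ∨ TS u v) : dig u v ≤ 23 := by
  by_cases h0 : dig u v = 0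
  · omega
  have hv := low h
  rcases h with h | h
  · exact absurd h.dig h0
  by_contra hd
  have h5 : (24 : ℝ) ≤ dig u v := by
    exact_mod_cast (by omega : 24 ≤ dig u v)
  rcases bnd h h0 with h1 | h1
  · nlinarith
  · nlinarith

theorem prod_le {u v : ℝ} (h : T0 u v ∨ TP u v ∨ TS u v) :
    7 * ((dig u v + 2) * (dig v (nx u v) + 4) + dig v (nx u v)) ≤
      256 * (dig v (nx u v) + 1) := by
  have hd := dig_le h
  have hv := low h
  by_cases h7 : dig u v ≤ 7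
  · have h8 : (dig u v + 2) * (dig v (nx u v) + 4) ≤ 9 * (dig v (nx u v) + 4) :=
      Nat.mul_le_mul_right _ (by omega)
    omega
  have h0 : dig u v ≠ 0 := by omega
  have hn : nx u v < v + 1 / 9 := by
    have h8 := dig2 (u := u) (v := v) (by linarith) h0
    unfold nx
    linarith
  have hn0 : 1 / 9 ≤ nx u v := dig1 (by linarith)
  have hk := dig1 (u := v) (v := nx u v) (by linarith)
  have h' : TP u v ∨ TS u v := by
    rcases h with h | h
    · exact absurd h.dig h0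
    · exact h
  by_cases h18 : dig u v ≤ 18
  · have h5 : (8 : ℝ) ≤ dig u v := by
      exact_mod_cast (by omega : 8 ≤ dig u v)
    have hv2 : v < 28 / 100 := by
      rcases bnd h' h0 with h1 | h1
      · nlinarith
      · nlinarith
    have hk3 : 3 ≤ dig v (nx u v) := by
      by_contra hk2
      have h6 : (dig v (nx u v) : ℝ) ≤ 2 := by
        exact_mod_cast (by omega : dig v (nx u v) ≤ 2)
      nlinarith
    have h8 : (dig u v + 2) * (dig v (nx u v) + 4) ≤ 20 * (dig v (nx u v) + 4) :=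
      Nat.mul_le_mul_right _ (by omega)
    omega
  · have h5 : (19 : ℝ) ≤ dig u v := by
      exact_mod_cast (by omega : 19 ≤ dig u v)
    have hv2 : v < 137 / 1000 := by
      rcases bnd h' h0 with h1 | h1
      · nlinarith
      · nlinarith
    have hk3 : 6 ≤ dig v (nx u v) := by
      by_contra hk2
      have h6 : (dig v (nx u v) : ℝ) ≤ 5 := by
        exact_mod_cast (by omega : dig v (nx u v) ≤ 5)
      nlinarith
    have h8 : (dig u v + 2) * (dig v (nx u v) + 4) ≤ 25 * (dig v (nx u v) + 4) :=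
      Nat.mul_le_mul_right _ (by omega)
    omega

/-- the pairs -/
noncomputable def pa (σ : ℝ) : ℕ → ℝ × ℝ
  | 0 => (1, 1 - σ)
  | j + 1 => ((pa σ j).2, nx (pa σ j).1 (pa σ j).2)

/-- the digits -/
noncomputable def bb (σ : ℝ) : ℕ → ℕ
  | 0 => 1
  | j + 1 => dig (pa σ j).1 (pa σ j).2

theorem inv {σ : ℝ} (h0 : 0 < σ) (h1 : σ ≤ 1 / 36) (j : ℕ) :
    ((T0 (pa σ j).1 (pa σ j).2 ∨ TP (pa σ j).1 (pa σ j).2) ∧ ∀ l, 1 ≤ l → l ≤ j → bb σ l = 0) ∨
      TS (pa σ j).1 (pa σ j).2 := by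
  induction j with
  | zero =>
    left
    refine ⟨Or.inl ⟨rfl, ?_, ?_⟩, fun l hl hl' => by omega⟩
    · change 35 / 36 ≤ 1 - σ
      linarith
    · change 1 - σ ≤ 1
      linarith
  | succ j ih =>
    rcases ih with ⟨ih, ih'⟩ | ih
    · by_cases hd : dig (pa σ j).1 (pa σ j).2 = 0
      · left
        refine ⟨Or.inr ?_, fun l hl hl' => ?_⟩
        · rcases ih with ih | ih
          · exact ih.next
          · exact ih.next0 hd
        · rcases Nat.lt_or_ge l (j + 1) with hlt | hge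
          · exact ih' l hl (by omega)
          · obtain rfl : l = j + 1 := by omega
            exact hd
      · right
        rcases ih with ih | ih
        · exact absurd ih.dig hd
        · exact ih.next1 hd
    · right
      exact ih.next

theorem inv' {σ : ℝ} (h0 : 0 < σ) (h1 : σ ≤ 1 / 36) (j : ℕ) :
    T0 (pa σ j).1 (pa σ j).2 ∨ TP (pa σ j).1 (pa σ j).2 ∨ TS (pa σ j).1 (pa σ j).2 := by
  rcases inv h0 h1 j with ⟨h | h, -⟩ | h
  · exact Or.inl h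
  · exact Or.inr (Or.inl h)
  · exact Or.inr (Or.inr h)

end GameAux

open GameAux in
theorem game (σ : ℝ) (h0 : 0 < σ) (h1 : σ ≤ 1 / 36) : ∃ (b : ℕ → ℕ) (φ : ℕ → ℝ), GameData σ b φ := by
  refine ⟨bb σ, fun j => (pa σ j).1, ?_⟩
  constructor
  · rfl
  · rfl
  · rfl
  · intro j
    rfl
  · intro j
    rcases inv' h0 h1 j with ⟨h, -, -⟩ | ⟨h, h', -⟩ | ⟨h, h', -⟩ <;> linarith
  · intro j
    rcases inv' h0 h1 j with ⟨h, -, -⟩ | ⟨-, -, h, -⟩ | ⟨-, -, h, -⟩ <;> linarith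
  · intro j
    cases j with
    | zero => simp [bb]
    | succ j => exact dig_le (inv' h0 h1 j)
  · intro j
    cases j with
    | zero =>
      simp only [bb]
      omega
    | succ j => exact prod_le (inv' h0 h1 j)
  · intro j hj hj2 l hl hl'
    rcases inv h0 h1 j with ⟨-, h⟩ | h
    · exact h l hl hl'
    · exact absurd hj2 fun h2 => h.not_zz hj h2

end Pool.Agent.D6
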