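import Pool.Agent.Lib.D6.Lim

/-!
# Lower bounds for points and polynomials (geometry of one plane)
-/

set_option autoImplicit false

namespace Pool.Agent.D6

variable {ξ : ℝ} {P Q : Pt}

theorem App.xpos (h : App ξ P) : (0 : ℝ) < P.x := h.bx.xpos

theorem App.a_lo (h : App ξ P) : 1 / (3 * (P.x : ℝ)) ≤ P.x * ξ - P.y := by
  have hx := h.xpos
  rw [div_le_iff₀ (by positivity)]
  have := h.lo
  nlinarith

theorem App.a_hi (h : App ξ P) : (P.x : ℝ) * ξ - P.y ≤ 2 / P.x := by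
  have hx := h.xpos
  rw [le_div_iff₀ hx]
  have := h.hi
  nlinarith

theorem App.a_pos (h : App ξ P) : 0 < (P.x : ℝ) * ξ - P.y := by
  have hx := h.xpos
  refine lt_of_lt_of_le ?_ h.a_lo
  positivity

theorem App.a_abs (h : App ξ P) : |(P.x : ℝ) * ξ - P.y| ≤ 2 / P.x := by
  rw [abs_of_pos h.a_pos]; exact h.a_hi

theorem App.b_abs (h : App ξ P) (h1 : 1 / 2 ≤ ξ) (h2 : ξ ≤ 1) :
    |(P.x : ℝ) * ξ ^ 2 - P.z| ≤ 3 / P.x := by
  have hx := h.xpos
  have hq : (P.x : ℝ) * P.z - P.y ^ 2 = 1 := by exact_mod_cast h.bx.hq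
  have hy1 : (P.y : ℝ) ≤ P.x := by exact_mod_cast h.bx.h1
  have hy0 : (1 : ℝ) ≤ P.y := by exact_mod_cast h.bx.y1
  have ha := h.a_pos
  have hhi := h.hi
  have e : (P.x : ℝ) * (P.x * ξ ^ 2 - P.z) = (P.x * ξ - P.y) * (P.x * ξ + P.y) - 1 := by
    linear_combination -hq
  have h3 : (P.x : ℝ) * ξ + P.y ≤ 2 * P.x := by nlinarith
  have h4 : 0 ≤ (P.x : ℝ) * ξ + P.y := by positivity
  have h5 : (P.x * ξ - P.y) * (P.x * ξ + P.y) ≤ 4 := by
    calc (P.x * ξ - P.y) * (P.x * ξ + P.y) ≤ (P.x * ξ - P.y) * (2 * P.x) := by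
          apply mul_le_mul_of_nonneg_left h3 ha.le
      _ = 2 * ((P.x : ℝ) * (P.x * ξ - P.y)) := by ring
      _ ≤ 4 := by linarith
  have h6 : 0 ≤ (P.x * ξ - P.y) * (P.x * ξ + P.y) := mul_nonneg ha.le h4
  have h7 : |(P.x : ℝ) * (P.x * ξ ^ 2 - P.z)| ≤ 3 := by
    rw [e, abs_le]; constructor <;> linarith
  rw [abs_mul, abs_of_pos hx] at h7
  rw [le_div_iff₀ hx]
  linarith

/-- The determinant in terms of the errors. -/
theorem det_err (ξ : ℝ) (P Q Y : Pt) : (det3 P Q Y : ℝ) =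
    P.x * ((Q.x * ξ - Q.y) * (Y.x * ξ ^ 2 - Y.z) - (Q.x * ξ ^ 2 - Q.z) * (Y.x * ξ - Y.y))
    - Q.x * ((P.x * ξ - P.y) * (Y.x * ξ ^ 2 - Y.z) - (P.x * ξ ^ 2 - P.z) * (Y.x * ξ - Y.y))
    + Y.x * ((P.x * ξ - P.y) * (Q.x * ξ ^ 2 - Q.z) - (P.x * ξ ^ 2 - P.z) * (Q.x * ξ - Q.y)) := by
  unfold det3
  push_cast
  ring

theorem abs_det2 {a b c d A B C D : ℝ} (ha : |a| ≤ A) (hb : |b| ≤ B) (hc : |c| ≤ C) (hd : |d| ≤ D) :
    |a * b - c * d| ≤ A * B + C * D := by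
  have hA := (abs_nonneg a).trans ha
  have hC := (abs_nonneg c).trans hc
  calc |a * b - c * d| ≤ |a * b| + |c * d| := abs_sub _ _
    _ = |a| * |b| + |c| * |d| := by rw [abs_mul, abs_mul]
    _ ≤ A * B + C * D := by gcongr

/-- Facts about the pair `(u, v)` of a state. -/
theorem v_le (t : St) (h : Inv t) : (t.v.x : ℝ) ≤ (t.u.x : ℝ) ^ 2 := by
  have h1 := (step_size h.bu h.bz h.gz).2
  have h2 := h.bz.hx
  have h3 := h.bv.hx
  have h4 : t.v.x ≤ t.u.x ^ 2 := by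
    change t.z.x * t.v.x ≤ 2 * t.u.x ^ 2 at h1
    nlinarith
  exact_mod_cast h4

theorem ga_uv (t : St) (h : Inv t) : (t.v.x : ℝ) ≤ 3 * (t.u.x * (ga t.u t.v : ℝ)) := by
  exact_mod_cast x_le_ga h.bu h.gv

/-- Every integer point with small first coordinate is not closer to the curve than `u`. -/
theorem lam_lower (h1 : 1 / 2 ≤ ξ) (h2 : ξ ≤ 1) {t : St} (h : Inv t) (au : App ξ t.u)
    (av : App ξ t.v) (y0 y1 y2 : ℤ) (hne : y0 ≠ 0) (hy0 : |(y0 : ℝ)| ≤ t.v.x / 20)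
    (hy1 : |(y0 : ℝ) * ξ - y1| ≤ 1 / (20 * t.u.x)) (hy2 : |(y0 : ℝ) * ξ ^ 2 - y2| ≤ 1 / (20 * t.u.x)) :
    False := by
  set Y : Pt := ⟨y0, y1, y2⟩ with hY
  have hux := au.xpos
  have hvx := av.xpos
  have hux2 : (2 : ℝ) ≤ t.u.x := by exact_mod_cast h.bu.hx
  have huv : (3 : ℝ) * t.u.x ≤ 2 * t.v.x := by exact_mod_cast good_lt h.bu h.gv
  have hvu := v_le t h
  have hD : det3 t.u t.v t.W ^ 2 = 4 := by
    have e : det3 t.u t.v t.W = det3 t.z t.u t.W := det_step _ _ _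
    rw [e]; exact h.hd
  -- the determinant vanishes
  have hdet : det3 t.u t.v Y = 0 := by
    have e := det_err ξ t.u t.v Y
    have b1 := abs_det2 av.a_abs hy2 (av.b_abs h1 h2) hy1
    have b2 := abs_det2 au.a_abs hy2 (au.b_abs h1 h2) hy1
    have b3 := abs_det2 au.a_abs (av.b_abs h1 h2) (au.b_abs h1 h2) av.a_abs
    have hlt : |(det3 t.u t.v Y : ℝ)| < 1 := by
      rw [e]
      set A1 := ((t.v.x : ℝ) * ξ - t.v.y) * (y0 * ξ ^ 2 - y2) -
        (t.v.x * ξ ^ 2 - t.v.z) * (y0 * ξ - y1) with hA1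
      set A2 := ((t.u.x : ℝ) * ξ - t.u.y) * (y0 * ξ ^ 2 - y2) -
        (t.u.x * ξ ^ 2 - t.u.z) * (y0 * ξ - y1) with hA2
      set A3 := ((t.u.x : ℝ) * ξ - t.u.y) * (t.v.x * ξ ^ 2 - t.v.z) -
        (t.u.x * ξ ^ 2 - t.u.z) * (t.v.x * ξ - t.v.y) with hA3
      have c1 : |(t.u.x : ℝ) * A1| ≤ 1 / 4 * (1 / t.v.x) := by
        rw [abs_mul, abs_of_pos hux]
        calc (t.u.x : ℝ) * |A1| ≤ t.u.x * (2 / t.v.x * (1 / (20 * t.u.x)) +
              3 / t.v.x * (1 / (20 * t.u.x))) := by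
              apply mul_le_mul_of_nonneg_left b1 hux.le
          _ = 1 / 4 * (1 / t.v.x) := by field_simp; ring
      have c2 : |(t.v.x : ℝ) * A2| ≤ 1 / 4 := by
        rw [abs_mul, abs_of_pos hvx]
        calc (t.v.x : ℝ) * |A2| ≤ t.v.x * (2 / t.u.x * (1 / (20 * t.u.x)) +
              3 / t.u.x * (1 / (20 * t.u.x))) := by
              apply mul_le_mul_of_nonneg_left b2 hvx.le
          _ = 1 / 4 * (t.v.x / (t.u.x : ℝ) ^ 2) := by field_simp; ring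
          _ ≤ 1 / 4 * 1 := by
              apply mul_le_mul_of_nonneg_left _ (by norm_num)
              rw [div_le_one (by positivity)]
              exact hvu
          _ = 1 / 4 := by ring
      have c3 : |(y0 : ℝ) * A3| ≤ 3 / 5 * (1 / t.u.x) := by
        rw [abs_mul]
        have hb : 2 / (t.u.x : ℝ) * (3 / t.v.x) + 3 / t.u.x * (2 / t.v.x) = 12 / (t.u.x * t.v.x) := by
          field_simp; ring
        rw [hb] at b3
        calc |(y0 : ℝ)| * |A3| ≤ t.v.x / 20 * (12 / (t.u.x * t.v.x)) := by gcongr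
          _ = 3 / 5 * (1 / t.u.x) := by field_simp; ring
      have d1 : 1 / (t.v.x : ℝ) ≤ 1 / 3 := by
        apply one_div_le_one_div_of_le (by norm_num) (by linarith)
      have d2 : 1 / (t.u.x : ℝ) ≤ 1 / 2 := by
        apply one_div_le_one_div_of_le (by norm_num) hux2
      calc |(t.u.x : ℝ) * A1 - t.v.x * A2 + y0 * A3|
          ≤ |(t.u.x : ℝ) * A1| + |(t.v.x : ℝ) * A2| + |(y0 : ℝ) * A3| := by
            refine (abs_add_le _ _).trans ?_
            gcongr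
            exact abs_sub _ _
        _ < 1 := by linarith
    have : |det3 t.u t.v Y| < 1 := by exact_mod_cast hlt
    exact Int.abs_lt_one_iff.1 this
  -- the component
  set N := det3 t.u Y t.W with hN
  have hid : det3 t.u t.v t.W * ga t.u Y = N * ga t.u t.v := by
    have e : det3 t.u t.v t.W * ga t.u Y - N * ga t.u t.v = det3 t.u t.v Y * ga t.u t.W := by
      rw [hN]; unfold det3 ga; ring
    rw [hdet] at e
    linarith
  have hN0 : N = 0 := by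
    by_contra hN0
    have hD2 : |det3 t.u t.v t.W| = 2 := by
      have h4 : |det3 t.u t.v t.W| ^ 2 = 4 := by rw [sq_abs]; exact hD
      have h5 := abs_nonneg (det3 t.u t.v t.W)
      nlinarith
    have h3 : |det3 t.u t.v t.W| * |ga t.u Y| = |N| * |ga t.u t.v| := by
      rw [← abs_mul, ← abs_mul, hid]
    have h4 : 1 ≤ |N| := Int.one_le_abs hN0
    have h5 : ga t.u t.v ≤ |ga t.u t.v| := le_abs_self _
    have h6 : ga t.u t.v ≤ 2 * |ga t.u Y| := by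
      rw [hD2] at h3
      rw [h3]
      nlinarith [abs_nonneg (ga t.u t.v)]
    have h7 : (ga t.u t.v : ℝ) ≤ 2 * |(ga t.u Y : ℝ)| := by exact_mod_cast h6
    have h8 : |(ga t.u Y : ℝ)| ≤ 1 / 20 + (t.v.x : ℝ) / 20 * (2 / t.u.x) := by
      have e : (ga t.u Y : ℝ) = y0 * (t.u.x * ξ - t.u.y) - t.u.x * (y0 * ξ - y1) := by
        unfold ga; simp only [hY]; push_cast; ring
      rw [e]
      have := abs_det2 hy0 au.a_abs (le_of_eq (abs_of_pos hux)) hy1
      calc _ ≤ _ := this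
        _ = _ := by field_simp; ring
    have h9 := ga_uv t h
    have h10 : (t.v.x : ℝ) ≤ 6 * (t.u.x * (1 / 20 + (t.v.x : ℝ) / 20 * (2 / t.u.x))) := by
      have : t.u.x * (ga t.u t.v : ℝ) ≤ t.u.x * (2 * (1 / 20 + (t.v.x : ℝ) / 20 * (2 / t.u.x))) := by
        apply mul_le_mul_of_nonneg_left _ hux.le
        linarith
      linarith
    have h11 : (t.u.x : ℝ) * (1 / 20 + (t.v.x : ℝ) / 20 * (2 / t.u.x)) = t.u.x / 20 + t.v.x / 10 := by
      field_simp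
      ring
    rw [h11] at h10
    linarith
  have hg : ga t.u Y = 0 := by
    rw [hN0, zero_mul] at hid
    rcases mul_eq_zero.1 hid with h3 | h3
    · rw [h3] at hD; norm_num at hD
    · exact h3
  have hg' : t.u.x * y1 = t.u.y * y0 := by
    unfold ga at hg; simp only [hY] at hg; linarith
  have hdvd : t.u.x ∣ y0 := by
    refine ⟨t.u.z * y0 - t.u.y * y1, ?_⟩
    have hq := h.bu.hq
    linear_combination (-y0) * hq + t.u.y * hg'
  have hle : (t.u.x : ℝ) ≤ |(y0 : ℝ)| := by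
    have h3 : t.u.x ≤ |y0| := by
      have := Int.le_of_dvd (abs_pos.2 hne) ((dvd_abs _ _).2 hdvd)
      exact this
    exact_mod_cast h3
  have e : (t.u.x : ℝ) * (y0 * ξ - y1) = y0 * (t.u.x * ξ - t.u.y) := by
    have : (t.u.x : ℝ) * y1 = t.u.y * y0 := by exact_mod_cast hg'
    linear_combination -this
  have h3 : (t.u.x : ℝ) * |(y0 : ℝ) * ξ - y1| = |(y0 : ℝ)| * (t.u.x * ξ - t.u.y) := by
    rw [← abs_of_pos hux, ← abs_mul, abs_of_pos hux, e, abs_mul, abs_of_pos au.a_pos]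
  have h4 : (t.u.x : ℝ) * (1 / (3 * (t.u.x : ℝ))) ≤ |(y0 : ℝ)| * (t.u.x * ξ - t.u.y) := by
    have := au.a_lo
    have h5 : 0 < 1 / (3 * (t.u.x : ℝ)) := by positivity
    nlinarith
  rw [← h3] at h4
  have h5 : (t.u.x : ℝ) * |(y0 : ℝ) * ξ - y1| ≤ t.u.x * (1 / (20 * t.u.x)) :=
    mul_le_mul_of_nonneg_left hy1 hux.le
  have h6 : (t.u.x : ℝ) * (1 / (3 * (t.u.x : ℝ))) = 1 / 3 := by field_simp
  have h7 : (t.u.x : ℝ) * (1 / (20 * (t.u.x : ℝ))) = 1 / 20 := by field_simp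
  linarith

/-- Every nonzero integer polynomial of small height is not too small at `ξ`. -/
theorem w_lower (h1 : 1 / 2 ≤ ξ) (h2 : ξ ≤ 1) {t : St} (h : Inv t) (au : App ξ t.u)
    (av : App ξ t.v) (r0 r1 r2 : ℤ) (hne : ¬ (r0 = 0 ∧ r1 = 0 ∧ r2 = 0))
    (h1' : |(r1 : ℝ)| ≤ t.v.x / t.u.x / 20)
    (h2' : |(r2 : ℝ)| ≤ t.v.x / t.u.x / 20)
    (hv : |(r0 : ℝ) + r1 * ξ + r2 * ξ ^ 2| ≤ 1 / (20 * t.v.x)) :
    False := by
  have hux := au.xpos
  have hvx := av.xpos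
  have hux2 : (2 : ℝ) ≤ t.u.x := by exact_mod_cast h.bu.hx
  have huv : (3 : ℝ) * t.u.x ≤ 2 * t.v.x := by exact_mod_cast good_lt h.bu h.gv
  have hvu := v_le t h
  have hD : det3 t.u t.v t.W ^ 2 = 4 := by
    have e : det3 t.u t.v t.W = det3 t.z t.u t.W := det_step _ _ _
    rw [e]; exact h.hd
  have hbound : ∀ S : Pt, App ξ S → (S.x : ℝ) ≤ t.v.x → (t.v.x : ℝ) / t.u.x / S.x ≤ 1 →
      r0 * S.x + r1 * S.y + r2 * S.z = 0 := by
    intro S hS hSv hS2
    have hsx := hS.xpos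
    have e : (r0 : ℝ) * S.x + r1 * S.y + r2 * S.z =
        S.x * (r0 + r1 * ξ + r2 * ξ ^ 2) - (r1 * (S.x * ξ - S.y) + r2 * (S.x * ξ ^ 2 - S.z)) := by
      ring
    have b1 : |(S.x : ℝ) * (r0 + r1 * ξ + r2 * ξ ^ 2)| ≤ 1 / 20 := by
      rw [abs_mul, abs_of_pos hsx]
      calc (S.x : ℝ) * |(r0 : ℝ) + r1 * ξ + r2 * ξ ^ 2| ≤ t.v.x * (1 / (20 * t.v.x)) := by gcongr
        _ = 1 / 20 := by field_simp
    have b2 : |(r1 : ℝ) * (S.x * ξ - S.y)| ≤ 1 / 10 := by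
      rw [abs_mul]
      calc |(r1 : ℝ)| * |(S.x : ℝ) * ξ - S.y| ≤ t.v.x / t.u.x / 20 * (2 / S.x) := by
            gcongr
            exact hS.a_abs
        _ = 1 / 10 * (t.v.x / t.u.x / S.x) := by field_simp; ring
        _ ≤ 1 / 10 * 1 := by gcongr
        _ = 1 / 10 := by ring
    have b3 : |(r2 : ℝ) * (S.x * ξ ^ 2 - S.z)| ≤ 3 / 20 := by
      rw [abs_mul]
      calc |(r2 : ℝ)| * |(S.x : ℝ) * ξ ^ 2 - S.z| ≤ t.v.x / t.u.x / 20 * (3 / S.x) := by
            gcongr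
            exact hS.b_abs h1 h2
        _ = 3 / 20 * (t.v.x / t.u.x / S.x) := by field_simp
        _ ≤ 3 / 20 * 1 := by gcongr
        _ = 3 / 20 := by ring
    have hlt : |(r0 : ℝ) * S.x + r1 * S.y + r2 * S.z| < 1 := by
      rw [e]
      refine lt_of_le_of_lt (abs_sub _ _) ?_
      have := abs_add_le ((r1 : ℝ) * (S.x * ξ - S.y)) (r2 * (S.x * ξ ^ 2 - S.z))
      linarith
    have : |r0 * S.x + r1 * S.y + r2 * S.z| < 1 := by exact_mod_cast hlt
    exact Int.abs_lt_one_iff.1 this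
  have hP : r0 * t.u.x + r1 * t.u.y + r2 * t.u.z = 0 := by
    refine hbound _ au (by linarith) ?_
    rw [div_div, div_le_one (by positivity)]
    nlinarith
  have hQ : r0 * t.v.x + r1 * t.v.y + r2 * t.v.z = 0 := by
    refine hbound _ av le_rfl ?_
    rw [div_div, div_le_one (by positivity)]
    nlinarith
  set N := r0 * t.W.x + r1 * t.W.y + r2 * t.W.z with hN
  have i2 : det3 t.u t.v t.W * r2 = N * ga t.u t.v := by
    rw [hN]; unfold det3 ga
    linear_combination (t.v.x * t.W.y - t.v.y * t.W.x) * hP + (t.W.x * t.u.y - t.W.y * t.u.x) * hQ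
  have i1 : det3 t.u t.v t.W * r1 = N * (t.u.z * t.v.x - t.u.x * t.v.z) := by
    rw [hN]; unfold det3
    linear_combination (t.v.z * t.W.x - t.v.x * t.W.z) * hP + (t.W.z * t.u.x - t.W.x * t.u.z) * hQ
  have i0 : det3 t.u t.v t.W * r0 = N * (t.u.y * t.v.z - t.u.z * t.v.y) := by
    rw [hN]; unfold det3
    linear_combination (t.v.y * t.W.z - t.v.z * t.W.y) * hP + (t.W.y * t.u.z - t.W.z * t.u.y) * hQ
  have hD0 : det3 t.u t.v t.W ≠ 0 := by
    intro h3; rw [h3] at hD; norm_num at hD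
  by_cases hN0 : N = 0
  · rw [hN0, zero_mul] at i0 i1 i2
    apply hne
    refine ⟨?_, ?_, ?_⟩
    · exact (mul_eq_zero.1 i0).resolve_left hD0
    · exact (mul_eq_zero.1 i1).resolve_left hD0
    · exact (mul_eq_zero.1 i2).resolve_left hD0
  · have hD2 : |det3 t.u t.v t.W| = 2 := by
      have h4 : |det3 t.u t.v t.W| ^ 2 = 4 := by rw [sq_abs]; exact hD
      have h5 := abs_nonneg (det3 t.u t.v t.W)
      nlinarith
    have h3 : |det3 t.u t.v t.W| * |r2| = |N| * |ga t.u t.v| := by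
      rw [← abs_mul, ← abs_mul, i2]
    have h4 : 1 ≤ |N| := Int.one_le_abs hN0
    have h5 : ga t.u t.v ≤ |ga t.u t.v| := le_abs_self _
    have h6 : ga t.u t.v ≤ 2 * |r2| := by
      rw [hD2] at h3
      rw [h3]
      nlinarith [abs_nonneg (ga t.u t.v)]
    have h7 : (ga t.u t.v : ℝ) ≤ 2 * |(r2 : ℝ)| := by exact_mod_cast h6
    have h9 := ga_uv t h
    have h10 : (t.v.x : ℝ) ≤ 3 * (t.u.x * (2 * (t.v.x / t.u.x / 20))) := by
      have : t.u.x * (ga t.u t.v : ℝ) ≤ t.u.x * (2 * (t.v.x / t.u.x / 20)) := by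
        apply mul_le_mul_of_nonneg_left _ hux.le
        linarith
      linarith
    have h11 : (t.u.x : ℝ) * (2 * (t.v.x / t.u.x / 20)) = t.v.x / 10 := by
      field_simp; ring
    rw [h11] at h10
    linarith

end Pool.Agent.D6
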