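import Pool.Agent.Lib.D6.Alg

/-!
# Paths of states and their limit point
-/

set_option autoImplicit false

open Filter Topology

namespace Pool.Agent.D6

/-- A path of states. -/
structure Path (T : ℕ → St) (op : ℕ → Op) : Prop where
  inv0 : Inv (T 0)
  st : ∀ n, T (n + 1) = ap (op n) (T n)

variable {T : ℕ → St} {op : ℕ → Op}

theorem Path.inv (h : Path T op) (n : ℕ) : Inv (T n) := by
  induction n with
  | zero => exact h.inv0
  | succ n ih => rw [h.st n]; exact inv_ap _ ih

/-- After a move: the new `u` comes after `u` and after (or equals) `v`. -/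
theorem good_ap_u (o : Op) {t : St} (h : Inv t) : Good t.u (ap o t).u := by
  cases o with
  | A => exact h.gv
  | J => exact h.gv
  | K => exact good_trans h.bv h.gv h.gX

theorem good_ap_v (o : Op) {t : St} (h : Inv t) : Good t.v (ap o t).v := by
  cases o with
  | A =>
    have h' := inv_ap Op.A h
    exact h'.gv
  | J =>
    have h' := inv_ap Op.J h
    exact h'.gv
  | K =>
    have h' := inv_ap Op.K h
    exact good_trans h'.bu h.gX h'.gv

theorem Path.good_u (h : Path T op) {n m : ℕ} (hnm : n < m) : Good (T n).u (T m).u := by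
  induction m with
  | zero => omega
  | succ m ih =>
    rcases Nat.lt_or_ge n m with h1 | h1
    · have h2 := ih h1
      rw [h.st m]
      exact good_trans (h.inv m).bu h2 (good_ap_u _ (h.inv m))
    · have e : n = m := by omega
      subst e
      rw [h.st n]
      exact good_ap_u _ (h.inv n)

/-- The slope of a point. -/
noncomputable def slope (P : Pt) : ℝ := (P.y : ℝ) / P.x

/-- The limit of the slopes. -/
noncomputable def xi (T : ℕ → St) : ℝ := ⨆ n, slope (T n).u

theorem Box.xpos {P : Pt} (h : Box P) : (0 : ℝ) < P.x := by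
  have := h.hx
  have h2 : (2 : ℝ) ≤ P.x := by exact_mod_cast this
  linarith

theorem slope_lt {P Q : Pt} (hP : Box P) (hQ : Box Q) (g : Good P Q) : slope P < slope Q := by
  unfold slope
  have h1 := hP.xpos
  have h2 := hQ.xpos
  rw [div_lt_div_iff₀ h1 h2]
  have := g.hc
  unfold ga at this
  have h3 : P.y * Q.x < P.x * Q.y := by linarith
  have h4 : (P.y : ℝ) * Q.x < P.x * Q.y := by exact_mod_cast h3
  linarith

theorem slope_le_one {P : Pt} (h : Box P) : slope P ≤ 1 := by
  unfold slope
  rw [div_le_one h.xpos]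
  exact_mod_cast h.h1

theorem half_le_slope {P : Pt} (h : Box P) : 1 / 2 ≤ slope P := by
  unfold slope
  rw [le_div_iff₀ h.xpos]
  have : (P.x : ℝ) ≤ 2 * P.y := by exact_mod_cast h.h2
  linarith

theorem Path.mono (h : Path T op) : StrictMono (fun n => slope (T n).u) := by
  intro n m hnm
  exact slope_lt (h.inv n).bu (h.inv m).bu (h.good_u hnm)

theorem Path.bdd (h : Path T op) : BddAbove (Set.range fun n => slope (T n).u) :=
  ⟨1, by rintro _ ⟨n, rfl⟩; exact slope_le_one (h.inv n).bu⟩

theorem Path.tendsto (h : Path T op) : Tendsto (fun n => slope (T n).u) atTop (𝓝 (xi T)) :=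
  tendsto_atTop_ciSup h.mono.monotone h.bdd

theorem Path.xi_le (h : Path T op) : xi T ≤ 1 := ciSup_le fun n => slope_le_one (h.inv n).bu

theorem Path.le_xi (h : Path T op) : 1 / 2 ≤ xi T :=
  (half_le_slope (h.inv 0).bu).trans (le_ciSup h.bdd 0)

theorem Path.app_of_good (h : Path T op) {P : Pt} (hP : Box P) (m0 : ℕ)
    (hg : ∀ m, m0 ≤ m → Good P (T m).u) : App (xi T) P := by
  have hx := hP.xpos
  have hlim : Tendsto (fun n => (P.x : ℝ) * (P.x * slope (T n).u - P.y)) atTop
      (𝓝 ((P.x : ℝ) * (P.x * xi T - P.y))) :=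
    ((h.tendsto.const_mul _).sub_const _).const_mul _
  have key : ∀ m, m0 ≤ m → 1 / 3 ≤ (P.x : ℝ) * (P.x * slope (T m).u - P.y) ∧
      (P.x : ℝ) * (P.x * slope (T m).u - P.y) ≤ 2 := by
    intro m hm
    have g := hg m hm
    have hb := (h.inv m).bu
    have hux := hb.xpos
    have e : (P.x : ℝ) * (P.x * slope (T m).u - P.y) = P.x * (ga P (T m).u : ℝ) / (T m).u.x := by
      unfold slope ga
      push_cast
      field_simp
    rw [e]
    have h1 := x_le_ga hP g
    have h2 := ga_le_x hP g
    have h1' : ((T m).u.x : ℝ) ≤ 3 * (P.x * (ga P (T m).u : ℝ)) := by exact_mod_cast h1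
    have h2' : (P.x : ℝ) * (ga P (T m).u : ℝ) ≤ 2 * (T m).u.x := by exact_mod_cast h2
    constructor
    · rw [le_div_iff₀ hux]; linarith
    · rw [div_le_iff₀ hux]; linarith
  refine ⟨hP, ?_, ?_⟩
  · refine ge_of_tendsto hlim ?_
    filter_upwards [eventually_ge_atTop m0] with m hm using (key m hm).1
  · refine le_of_tendsto hlim ?_
    filter_upwards [eventually_ge_atTop m0] with m hm using (key m hm).2

theorem Path.app_u (h : Path T op) (n : ℕ) : App (xi T) (T n).u :=
  h.app_of_good (h.inv n).bu (n + 1) fun m hm => h.good_u (by omega)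

theorem Path.app_z (h : Path T op) (n : ℕ) : App (xi T) (T n).z :=
  h.app_of_good (h.inv n).bz (n + 1) fun m hm =>
    good_trans (h.inv n).bu (h.inv n).gz (h.good_u (by omega))

theorem Path.app_W (h : Path T op) (n : ℕ) : App (xi T) (T n).W :=
  h.app_of_good (h.inv n).bW (n + 1) fun m hm =>
    good_trans (h.inv n).bu (h.inv n).gW (h.good_u (by omega))

theorem Path.app_v (h : Path T op) (n : ℕ) : App (xi T) (T n).v := by
  refine h.app_of_good (h.inv n).bv (n + 2) fun m hm => ?_
  have h1 : Good (T (n + 1)).u (T m).u := h.good_u (by omega)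
  have hi := h.inv n
  rcases ho : op n with _ | _ | _
  · have e : (T (n + 1)).u = (T n).v := by rw [h.st n, ho]; rfl
    rw [e] at h1
    exact h1
  · have e : (T (n + 1)).u = (T n).v := by rw [h.st n, ho]; rfl
    rw [e] at h1
    exact h1
  · have e : (T (n + 1)).u = step (T n).v (T n).W := by rw [h.st n, ho]; rfl
    rw [e] at h1
    exact good_trans hi.bX hi.gX h1

end Pool.Agent.D6
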