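import Pool.Agent.Lib.D6.Geo
import Pool.Agent.Lib.WnF.Root

/-!
# The polynomial of a pair of points
-/

set_option autoImplicit false

namespace Pool.Agent.D6

variable {ξ : ℝ}

/-- The cross product of `P` and `Q`, as the coefficient vector of a quadratic polynomial. -/
def pol (P Q : Pt) : Fin (2 + 1) → ℤ := ![-(be P Q), al P Q - de P Q, ga P Q]

namespace PolyAux

theorem hp_bdd (P : Polynomial ℤ) : BddAbove (Set.range fun i : ℕ => |(P.coeff i : ℝ)|) := by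
  refine ⟨∑ i ∈ P.support, |(P.coeff i : ℝ)|, ?_⟩
  rintro _ ⟨i, rfl⟩
  by_cases hi : i ∈ P.support
  · exact Finset.single_le_sum (f := fun i => |(P.coeff i : ℝ)|) (fun _ _ => abs_nonneg _) hi
  · simp only
    rw [Polynomial.notMem_support_iff.1 hi, Int.cast_zero, abs_zero]
    exact Finset.sum_nonneg fun _ _ => abs_nonneg _

theorem one_le_hp (P : Polynomial ℤ) (hP : P ≠ 0) : 1 ≤ WnF.hp P := by
  obtain ⟨i, hi⟩ : ∃ i, P.coeff i ≠ 0 := by
    by_contra h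
    push Not at h
    exact hP (Polynomial.ext fun i => by simpa using h i)
  have h1 : (1 : ℝ) ≤ |(P.coeff i : ℝ)| := by
    have := Int.one_le_abs hi
    exact_mod_cast this
  exact h1.trans (le_ciSup (hp_bdd P) i)

theorem pv_eq (P Q : Pt) (ξ : ℝ) : WnF.pv (pol P Q) ξ =
    -(be P Q : ℝ) + ((al P Q : ℝ) - de P Q) * ξ + (ga P Q : ℝ) * ξ ^ 2 := by
  unfold WnF.pv pol
  rw [Fin.sum_univ_three]
  simp

/-- The coefficients in terms of the ratio of the sizes. -/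
theorem coef (P Q : Pt) (bP : Box P) (g : Good P Q) :
    (be P Q : ℝ) ≤ (Q.x : ℝ) / P.x ∧ (ga P Q : ℝ) ≤ 2 * ((Q.x : ℝ) / P.x) ∧
      |(al P Q : ℝ) - de P Q| ≤ 2 * ((Q.x : ℝ) / P.x) := by
  have hx : (0 : ℝ) < P.x := bP.xpos
  have hxi := bP.hx
  have h1 := bP.h1
  have h2 := bP.h2
  have h3 := bP.h3
  have h4 := bP.h4
  have hy1 := bP.y1
  have hz1 := bP.z1
  have ga1 := g.hc
  have al1 := g.ha
  have be1 := g.hb
  have de1 := g.hd
  have ex := x_eq bP Q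
  have ey := y_eq bP Q
  have ey' := y_eq' bP Q
  have hQyx : Q.y ≤ Q.x := by
    rw [ex, ey]
    have a1 : P.y * al P Q ≤ P.x * al P Q := by
      apply mul_le_mul_of_nonneg_right h1 (by omega)
    have a2 : P.z * ga P Q ≤ P.y * ga P Q := by
      apply mul_le_mul_of_nonneg_right h3 (by omega)
    linarith
  have hal : P.x * al P Q ≤ Q.x := by
    rw [ex]
    have : 0 ≤ P.y * ga P Q := by positivity
    linarith
  have hbe : P.x * be P Q ≤ Q.x := by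
    refine le_trans ?_ hQyx
    rw [ey']
    have : 0 ≤ P.y * de P Q := by positivity
    linarith
  have hde : P.x * de P Q ≤ 2 * Q.x := by
    have b1 : P.y * de P Q ≤ Q.x := by
      refine le_trans ?_ hQyx
      rw [ey']
      have : 0 ≤ P.x * be P Q := by positivity
      linarith
    have b2 : P.x * de P Q ≤ 2 * P.y * de P Q := by
      apply mul_le_mul_of_nonneg_right h2 (by omega)
    linarith
  have hga := ga_le_x bP g
  have hal' : (P.x : ℝ) * al P Q ≤ Q.x := by exact_mod_cast hal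
  have hbe' : (P.x : ℝ) * be P Q ≤ Q.x := by exact_mod_cast hbe
  have hde' : (P.x : ℝ) * de P Q ≤ 2 * Q.x := by exact_mod_cast hde
  have hga' : (P.x : ℝ) * ga P Q ≤ 2 * Q.x := by exact_mod_cast hga
  have al1' : (1 : ℝ) ≤ al P Q := by exact_mod_cast al1
  have de1' : (1 : ℝ) ≤ de P Q := by exact_mod_cast de1
  have hR : (P.x : ℝ) * ((Q.x : ℝ) / P.x) = Q.x := by field_simp
  refine ⟨?_, ?_, ?_⟩
  · rw [le_div_iff₀ hx]; linarith
  · rw [← mul_div_assoc, le_div_iff₀ hx]; linarith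
  · have c1 : (al P Q : ℝ) ≤ (Q.x : ℝ) / P.x := by rw [le_div_iff₀ hx]; linarith
    have c2 : (de P Q : ℝ) ≤ 2 * ((Q.x : ℝ) / P.x) := by
      rw [← mul_div_assoc, le_div_iff₀ hx]; linarith
    rw [abs_le]
    constructor <;> linarith

/-- The derivative. -/
theorem der (ξ : ℝ) (P Q : Pt) (aP : App ξ P) (aQ : App ξ Q) :
    ((al P Q : ℝ) - de P Q) + 2 * (ga P Q : ℝ) * ξ =
      Q.x / P.x * (1 + (P.x * ξ - P.y) ^ 2) - P.x / Q.x * (1 + (Q.x * ξ - Q.y) ^ 2) := by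
  have hx := aP.xpos
  have hx' := aQ.xpos
  have hq : (P.x : ℝ) * P.z - P.y ^ 2 = 1 := by exact_mod_cast aP.bx.hq
  have hq' : (Q.x : ℝ) * Q.z - Q.y ^ 2 = 1 := by exact_mod_cast aQ.bx.hq
  have e1 : 1 + ((P.x : ℝ) * ξ - P.y) ^ 2 = P.x * (P.x * ξ ^ 2 - 2 * P.y * ξ + P.z) := by
    linear_combination -hq
  have e2 : 1 + ((Q.x : ℝ) * ξ - Q.y) ^ 2 = Q.x * (Q.x * ξ ^ 2 - 2 * Q.y * ξ + Q.z) := by
    linear_combination -hq'
  rw [e1, e2]
  unfold al de ga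
  push_cast
  field_simp
  ring

theorem pv_ne_zero (P Q : Pt) (g : Good P Q) {ξ : ℝ} (ht : Transcendental ℚ ξ) :
    WnF.pv (pol P Q) ξ ≠ 0 := by
  intro h0
  rw [pv_eq] at h0
  apply ht
  refine ⟨Polynomial.C (-(be P Q : ℚ)) + Polynomial.C ((al P Q : ℚ) - de P Q) * Polynomial.X +
    Polynomial.C (ga P Q : ℚ) * Polynomial.X ^ 2, ?_, ?_⟩
  · intro h
    have h2 := congrArg (fun p => Polynomial.coeff p 2) h
    simp only [Polynomial.coeff_add, Polynomial.coeff_C_mul, Polynomial.coeff_X_pow,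
      Polynomial.coeff_C, Polynomial.coeff_X, Polynomial.coeff_zero] at h2
    norm_num at h2
    have := g.hc
    omega
  · simp only [map_add, map_mul, Polynomial.aeval_C, Polynomial.aeval_X, map_pow]
    simp only [eq_ratCast, Rat.cast_neg, Rat.cast_intCast, Rat.cast_sub]
    exact h0

end PolyAux

theorem pol_val (h1 : 1 / 2 ≤ ξ) (h2 : ξ ≤ 1) {P Q S : Pt} (aP : App ξ P) (g : Good P Q)
    (aS : App ξ S) :
    |WnF.pv (pol P Q) ξ| ≤ (|(det3 P Q S : ℝ)| + 10 * ((Q.x : ℝ) / P.x) / S.x) / S.x := by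
  have hx := aP.xpos
  have hsx := aS.xpos
  obtain ⟨-, c2, c1⟩ := PolyAux.coef P Q aP.bx g
  have hga1 : (1 : ℝ) ≤ ga P Q := by exact_mod_cast g.hc
  have e : (S.x : ℝ) * WnF.pv (pol P Q) ξ = det3 P Q S +
      ((al P Q - de P Q) * (S.x * ξ - S.y) + ga P Q * (S.x * ξ ^ 2 - S.z)) := by
    rw [PolyAux.pv_eq]
    unfold det3 al be ga de
    push_cast
    ring
  have b1 : |((al P Q : ℝ) - de P Q) * (S.x * ξ - S.y)| ≤ 2 * ((Q.x : ℝ) / P.x) * (2 / S.x) := by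
    rw [abs_mul]
    exact mul_le_mul c1 aS.a_abs (abs_nonneg _) ((abs_nonneg _).trans c1)
  have b2 : |(ga P Q : ℝ) * (S.x * ξ ^ 2 - S.z)| ≤ 2 * ((Q.x : ℝ) / P.x) * (3 / S.x) := by
    rw [abs_mul]
    refine mul_le_mul ?_ (aS.b_abs h1 h2) (abs_nonneg _) (by linarith)
    rw [abs_of_nonneg (by linarith)]
    exact c2
  rw [le_div_iff₀ hsx, mul_comm, ← abs_of_pos hsx, ← abs_mul, abs_of_pos hsx, e]
  refine (abs_add_le _ _).trans ?_
  have b3 := abs_add_le (((al P Q : ℝ) - de P Q) * (S.x * ξ - S.y))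
    (ga P Q * (S.x * ξ ^ 2 - S.z))
  have b4 : 2 * ((Q.x : ℝ) / P.x) * (2 / S.x) + 2 * ((Q.x : ℝ) / P.x) * (3 / S.x) =
      10 * ((Q.x : ℝ) / P.x) / S.x := by
    field_simp
    ring
  linarith

theorem poly_ap : ∃ K : ℝ, 1 ≤ K ∧ ∀ ξ : ℝ, 1 / 2 ≤ ξ → ξ ≤ 1 → Transcendental ℚ ξ →
    ∀ P Q : Pt, App ξ P → App ξ Q → Good P Q → 2 * (P.x : ℝ) ≤ Q.x → ∀ r X : ℝ, 0 ≤ r → 1 ≤ X →
      K * ((Q.x : ℝ) / P.x) ≤ X → K * |WnF.pv (pol P Q) ξ| ≤ X ^ (-r) →
      WnF.Appr 2 ξ r X ∧ PolAp 2 ξ r X := by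
  obtain ⟨K0, hK0, H⟩ := WnF.root 2 4 (by norm_num)
  refine ⟨2 * K0 ^ 2, by nlinarith, ?_⟩
  intro ξ h1 h2 ht P Q aP aQ g hPQ r X hr hX hKX hKv
  have hx := aP.xpos
  have hx' := aQ.xpos
  have hx2 : (2 : ℝ) ≤ P.x := by exact_mod_cast aP.bx.hx
  have hx2' : (2 : ℝ) ≤ Q.x := by exact_mod_cast aQ.bx.hx
  obtain ⟨c0, c2, c1⟩ := PolyAux.coef P Q aP.bx g
  have hga1 : (1 : ℝ) ≤ ga P Q := by exact_mod_cast g.hc
  have hbe1 : (1 : ℝ) ≤ be P Q := by exact_mod_cast g.hb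
  have hv0 : 0 < |WnF.pv (pol P Q) ξ| := abs_pos.2 (PolyAux.pv_ne_zero P Q g ht)
  set R : ℝ := (Q.x : ℝ) / P.x with hR
  set v : ℝ := |WnF.pv (pol P Q) ξ| with hv
  have hR2 : 2 ≤ R := by rw [hR, le_div_iff₀ hx]; linarith
  have hXr : X ^ (-r) ≤ 1 := Real.rpow_le_one_of_one_le_of_nonpos hX (by linarith)
  have hXr0 : 0 < X ^ (-r) := Real.rpow_pos_of_pos (by linarith) _
  have hK02 : K0 ≤ K0 ^ 2 := by nlinarith
  have hcoef : ∀ i, |((pol P Q) i : ℝ)| ≤ 2 * R := by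
    intro i
    fin_cases i
    · change |((-(be P Q) : ℤ) : ℝ)| ≤ _
      rw [Int.cast_neg, abs_neg, abs_of_nonneg (by linarith)]
      linarith
    · change |((al P Q - de P Q : ℤ) : ℝ)| ≤ _
      rw [Int.cast_sub]
      exact c1
    · change |((ga P Q : ℤ) : ℝ)| ≤ _
      rw [abs_of_nonneg (by linarith)]
      exact c2
  have hd : R / 2 ≤ ∑ i : Fin (2 + 1), (i : ℕ) * ((pol P Q) i : ℝ) * ξ ^ ((i : ℕ) - 1) := by
    have e : ∑ i : Fin (2 + 1), (i : ℕ) * ((pol P Q) i : ℝ) * ξ ^ ((i : ℕ) - 1) =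
        ((al P Q : ℝ) - de P Q) + 2 * (ga P Q : ℝ) * ξ := by
      rw [Fin.sum_univ_three]
      simp [pol]
    rw [e, PolyAux.der ξ P Q aP aQ]
    have p1 : 0 ≤ ((P.x : ℝ) * ξ - P.y) ^ 2 := sq_nonneg _
    have p2 : ((Q.x : ℝ) * ξ - Q.y) ^ 2 ≤ 1 := by
      have q1 := aQ.a_pos
      have q2 := aQ.a_hi
      have q3 : 2 / (Q.x : ℝ) ≤ 1 := by rw [div_le_one hx']; exact hx2'
      have q4 : (Q.x : ℝ) * ξ - Q.y ≤ 1 := q2.trans q3
      nlinarith
    have p3 : (P.x : ℝ) / Q.x ≤ 1 / 2 := by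
      rw [div_le_iff₀ hx']; linarith
    have p4 : 0 < (P.x : ℝ) / Q.x := by positivity
    have p5 : R * 1 ≤ R * (1 + ((P.x : ℝ) * ξ - P.y) ^ 2) := by
      apply mul_le_mul_of_nonneg_left _ (by linarith)
      linarith
    have p6 : (P.x : ℝ) / Q.x * (1 + ((Q.x : ℝ) * ξ - Q.y) ^ 2) ≤ 1 / 2 * 2 := by
      apply mul_le_mul p3 (by linarith) (by positivity) (by norm_num)
    linarith
  have hY1 : 1 ≤ R / 2 := by linarith
  have hKv' : K0 * v ≤ R / 2 := by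
    have : K0 * v ≤ 2 * K0 ^ 2 * v := by
      apply mul_le_mul_of_nonneg_right _ hv0.le
      nlinarith
    linarith
  have hξ : |ξ| ≤ 1 := by rw [abs_of_nonneg (by linarith)]; exact h2
  obtain ⟨S, hS, hdeg, hhp, α, hα, hαξ⟩ := H ξ (R / 2) (pol P Q) hξ hY1
    (fun i => (hcoef i).trans (by linarith)) hd hKv'
  have hhp1 := PolyAux.one_le_hp S hS.ne_zero
  have hKR : K0 * R ≤ 2 * K0 ^ 2 * R := by
    apply mul_le_mul_of_nonneg_right _ (by linarith)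
    nlinarith
  refine ⟨⟨S, hS, hdeg, ?_, α, hα, ?_, ?_⟩, ⟨pol P Q, ?_, ?_, ?_⟩⟩
  · refine hhp.trans ?_
    have : K0 * (R / 2) ≤ K0 * R := by
      apply mul_le_mul_of_nonneg_left _ (by linarith)
      linarith
    linarith
  · rw [abs_pos, sub_ne_zero]
    rintro rfl
    apply ht
    refine ⟨S.map (Int.castRingHom ℚ), ?_, ?_⟩
    · rw [Ne, Polynomial.map_eq_zero_iff (RingHom.injective_int _)]
      exact hS.ne_zero
    · rw [← hα]
      rw [Polynomial.aeval_def, Polynomial.aeval_def, Polynomial.eval₂_map]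
      congr 1
  · refine hαξ.trans ?_
    have hYpos : 0 < R / 2 := by linarith
    rw [inv_mul_eq_div, div_le_div_iff₀ hYpos (by linarith)]
    calc K0 * v * WnF.hp S ≤ K0 * v * (K0 * (R / 2)) := by
          apply mul_le_mul_of_nonneg_left hhp (by positivity)
      _ = K0 ^ 2 * v * (R / 2) := by ring
      _ ≤ X ^ (-r) * (R / 2) := by
          apply mul_le_mul_of_nonneg_right _ hYpos.le
          have : 0 ≤ K0 ^ 2 * v := by positivity
          linarith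
  · intro j
    refine (hcoef j).trans ?_
    have : 2 * R ≤ 2 * K0 ^ 2 * R := by
      apply mul_le_mul_of_nonneg_right _ (by linarith)
      nlinarith
    linarith
  · exact hv0
  · have : v ≤ 2 * K0 ^ 2 * v := by
      have h3 : (1 : ℝ) ≤ 2 * K0 ^ 2 := by nlinarith
      nlinarith
    exact this.trans hKv

end Pool.Agent.D6
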