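import Pool.Agent.Lib.D6.Sizes
import Pool.Agent.Lib.D6.Dyn

/-!
# Blocks of moves and the recursion of the logarithms
-/

set_option autoImplicit false

open Filter

namespace Pool.Agent.D6

/-- `j` moves `A`. -/
def rn (t : St) (j : ℕ) : St := (ap Op.A)^[j] t

theorem rn_zero (t : St) : rn t 0 = t := rfl

theorem rn_succ (t : St) (j : ℕ) : rn t (j + 1) = ap Op.A (rn t j) :=
  Function.iterate_succ_apply' _ _ _

theorem rn_inv {t : St} (h : Inv t) (j : ℕ) : Inv (rn t j) := by
  induction j with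
  | zero => exact h
  | succ j ih => rw [rn_succ]; exact inv_ap _ ih

theorem rn_W (t : St) (j : ℕ) : (rn t j).W = t.W := by
  induction j with
  | zero => rfl
  | succ j ih => rw [rn_succ]; exact ih

theorem rn_z (t : St) (j : ℕ) : (rn t (j + 1)).z = (rn t j).u := by rw [rn_succ]; rfl
theorem rn_u (t : St) (j : ℕ) : (rn t (j + 1)).u = (rn t j).v := by rw [rn_succ]; rfl

theorem log2_le : Real.log 2 ≤ 1 := by
  have := Real.log_two_lt_d9
  linarith

theorem log2_nonneg : 0 ≤ Real.log 2 := Real.log_nonneg (by norm_num)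

/-- The gaps. -/
theorem gap {t : St} (h : Inv t) (j : ℕ) :
    lg t.u - lg t.z ≤ lg (rn t j).u - lg (rn t j).z ∧
      lg (rn t j).u - lg (rn t j).z ≤ lg t.u - lg t.z + j := by
  induction j with
  | zero => simp [rn_zero]
  | succ j ih =>
    have h1 := (rn_inv h j).lv
    rw [rn_z, rn_u]
    have := log2_le
    push_cast
    constructor <;> linarith [ih.1, ih.2]

/-- The sizes. -/
theorem size {t : St} (h : Inv t) (j : ℕ) :
    lg t.z + j * (lg t.u - lg t.z) ≤ lg (rn t j).z ∧
      lg (rn t j).z ≤ lg t.z + j * (lg t.u - lg t.z) + (j : ℝ) ^ 2 := by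
  induction j with
  | zero => simp [rn_zero]
  | succ j ih =>
    have h1 := gap h j
    rw [rn_z]
    push_cast
    have hj : (0 : ℝ) ≤ j := Nat.cast_nonneg _
    constructor
    · nlinarith [ih.1, ih.2, h1.1, h1.2]
    · nlinarith [ih.1, ih.2, h1.1, h1.2]

/-- The states after the blocks. -/
def blk (d : ℕ → ℕ) (s : St) : ℕ → St
  | 0 => s
  | i + 1 => ap Op.K (rn (blk d s i) (d i))

theorem blk_inv {d : ℕ → ℕ} {s : St} (h : Inv s) (i : ℕ) : Inv (blk d s i) := by
  induction i with
  | zero => exact h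
  | succ i ih => exact inv_ap _ (rn_inv ih _)

theorem blk_zW {d : ℕ → ℕ} {s : St} (h : Inv s) (h0 : lg s.z ≤ lg s.W) (i : ℕ) :
    lg (blk d s i).z ≤ lg (blk d s i).W := by
  cases i with
  | zero => exact h0
  | succ i =>
    have h1 := rn_inv (blk_inv (d := d) h i) (d i)
    exact (lg_lt h1.bz h1.gz).le

theorem dyn_blk {d : ℕ → ℕ} (hd : ∀ i, d i ≤ 23) {s : St} (h : Inv s) (h0 : lg s.z ≤ lg s.W) :
    Dyn d 700 (fun i => lg (blk d s i).u - lg (blk d s i).z) (fun i => lg (blk d s i).W - lg (blk d s i).z)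
      (fun i => lg (blk d s i).z) (fun i => lg (rn (blk d s i) (d i)).v) := by
  have hi := fun i => blk_inv (d := d) h i
  have hd' : ∀ i, (d i : ℝ) ≤ 23 := fun i => by exact_mod_cast hd i
  have hd0 : ∀ i, (0 : ℝ) ≤ d i := fun i => Nat.cast_nonneg _
  have hl := log2_le
  have hl0 := log2_nonneg
  have kz : ∀ i, (blk d s (i + 1)).z = (rn (blk d s i) (d i)).z := fun i => rfl
  have kW : ∀ i, (blk d s (i + 1)).W = (rn (blk d s i) (d i)).u := fun i => rfl
  have ku : ∀ i, (blk d s (i + 1)).u = step (rn (blk d s i) (d i)).v (rn (blk d s i) (d i)).W := fun i => rfl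
  refine ⟨?_, by norm_num, ?_, ?_, ?_, ?_, ?_, ?_, ?_, ?_, ?_, ?_, ?_⟩
  · have := lg_lt (hi 0).bz (hi 0).gz
    linarith
  · intro i
    have := blk_zW (d := d) h h0 i
    linarith
  · intro i
    have := lg_lt (hi i).bW (hi i).gW
    linarith
  · intro i
    exact (hi i).bz.lg_pos.le
  · intro i
    have a1 := gap (hi i) (d i)
    have a2 := size (hi i) (d i)
    have a3 := (rn_inv (hi i) (d i)).lv
    have a4 := (rn_inv (hi i) (d i)).lX
    simp only [kz, ku]
    rw [rn_W] at a4 ⊢
    nlinarith [hd' i, hd0 i]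
  · intro i
    have a1 := gap (hi i) (d i)
    have a2 := size (hi i) (d i)
    have a3 := (rn_inv (hi i) (d i)).lv
    have a4 := (rn_inv (hi i) (d i)).lX
    simp only [kz, ku]
    rw [rn_W] at a4 ⊢
    nlinarith [hd' i, hd0 i]
  · intro i
    have a1 := gap (hi i) (d i)
    simp only [kz, kW]
    linarith
  · intro i
    have a1 := gap (hi i) (d i)
    simp only [kz, kW]
    linarith [hd' i]
  · intro i
    have a2 := size (hi i) (d i)
    simp only [kz]
    linarith
  · intro i
    have a2 := size (hi i) (d i)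
    simp only [kz]
    nlinarith [hd' i, hd0 i]
  · intro i hi0
    simp only [kz, hi0, rn_zero]
  · intro i
    have a1 := gap (hi i) (d i)
    have a2 := size (hi i) (d i)
    have a3 := (rn_inv (hi i) (d i)).lv
    nlinarith [hd' i, hd0 i]

end Pool.Agent.D6
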