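import Pool.Agent.Lib.D6.Poly

/-!
# Logarithmic sizes along a path; the hypotheses of the exponent theorems
-/

set_option autoImplicit false

open Filter Topology

namespace Pool.Agent.D6

theorem Box.lg_lo {P : Pt} (h : Box P) : Real.log 2 ≤ lg P :=
  Real.log_le_log (by norm_num) (by exact_mod_cast h.hx)

theorem Box.lg_pos {P : Pt} (h : Box P) : 0 < lg P :=
  lt_of_lt_of_le (Real.log_pos (by norm_num)) h.lg_lo

theorem Box.exp_lg {P : Pt} (h : Box P) : Real.exp (lg P) = P.x := Real.exp_log h.xpos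

theorem lg_lt {P Q : Pt} (h : Box P) (g : Good P Q) : lg P < lg Q := by
  apply Real.log_lt_log h.xpos
  have h1 := good_lt h g
  have h2 := h.hx
  have : P.x < Q.x := by omega
  exact_mod_cast this

/-- The size of a step, in logarithmic form. -/
theorem lg_step {P Q : Pt} (hP : Box P) (hQ : Box Q) (g : Good Q P) :
    2 * lg P - lg Q ≤ lg (step P Q) ∧ lg (step P Q) ≤ 2 * lg P - lg Q + Real.log 2 := by
  have h := step_size hP hQ g
  have hb := box_step hP hQ g
  have h1 : (P.x : ℝ) ^ 2 ≤ Q.x * (step P Q).x := by exact_mod_cast h.1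
  have h2 : (Q.x : ℝ) * (step P Q).x ≤ 2 * (P.x : ℝ) ^ 2 := by exact_mod_cast h.2
  have p1 := hP.xpos
  have p2 := hQ.xpos
  have p3 := hb.xpos
  have l1 := Real.log_le_log (by positivity) h1
  have l2 := Real.log_le_log (by positivity) h2
  rw [Real.log_mul p2.ne' p3.ne', Real.log_pow] at l1
  rw [Real.log_mul p2.ne' p3.ne', Real.log_mul (by norm_num) (by positivity), Real.log_pow] at l2
  unfold lg
  push_cast at l1 l2
  constructor <;> linarith

theorem Inv.lv {t : St} (h : Inv t) : 2 * lg t.u - lg t.z ≤ lg t.v ∧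
    lg t.v ≤ 2 * lg t.u - lg t.z + Real.log 2 := lg_step h.bu h.bz h.gz

theorem Inv.lX {t : St} (h : Inv t) : 2 * lg t.v - lg t.W ≤ lg (step t.v t.W) ∧
    lg (step t.v t.W) ≤ 2 * lg t.v - lg t.W + Real.log 2 := lg_step h.bv h.bW h.gWv

/-- The hypotheses on the sizes. -/
structure Lim (T : ℕ → St) (op : ℕ → Op) (Λ : ℝ) : Prop where
  t1 : ∀ ε : ℝ, 0 < ε → ∀ᶠ n in atTop, lg (T n).u ≤ (Λ + ε) * lg (T n).z
  t2 : ∀ ε : ℝ, 0 < ε → ∀ᶠ n in atTop, op n = Op.K → lg (T n).v ≤ (Λ + ε) * lg (T n).W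
  t3 : ∀ ε : ℝ, 0 < ε → ∃ᶠ n in atTop, (Λ - ε) * lg (T n).z ≤ lg (T n).u
  t4 : Tendsto (fun n => lg (T n).u - lg (T n).z) atTop atTop

theorem Lim.u_top {T : ℕ → St} {op : ℕ → Op} {Λ : ℝ} (h : Path T op) (l : Lim T op Λ) :
    Tendsto (fun n => lg (T n).u) atTop atTop :=
  tendsto_atTop_mono (fun n => by have := (h.inv n).bz.lg_pos; linarith) l.t4

/-- First passage: a real `t` beyond `a n0` lies between two consecutive values of a sequence tending to `∞`. -/
theorem first_passage {a : ℕ → ℝ} (ha : Tendsto a atTop atTop) (n0 : ℕ) (t : ℝ) (ht : a n0 ≤ t) :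
    ∃ n, n0 ≤ n ∧ a n ≤ t ∧ t < a (n + 1) := by
  obtain ⟨N, hN⟩ := (ha.eventually_gt_atTop t).exists_forall_of_atTop
  classical
  have hex : ∃ m, n0 < m ∧ t < a m := ⟨max N (n0 + 1), by omega, hN _ (le_max_left _ _)⟩
  have h12 := Nat.find_spec hex
  have hmin : ∀ k, k < Nat.find hex → ¬ (n0 < k ∧ t < a k) := fun k hk => Nat.find_min hex hk
  generalize Nat.find hex = m at h12 hmin
  obtain ⟨h1, h2⟩ := h12
  obtain ⟨m', rfl⟩ : ∃ m', m = m' + 1 := ⟨m - 1, by omega⟩
  refine ⟨m', by omega, ?_, h2⟩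
  by_contra hlt
  rw [not_le] at hlt
  have h4 : n0 < m' := by
    rcases Nat.lt_or_ge n0 m' with h5 | h5
    · exact h5
    · have : m' = n0 := by omega
      rw [this] at hlt
      exact absurd hlt (not_lt.2 ht)
  exact hmin m' (by omega) ⟨h4, hlt⟩

end Pool.Agent.D6
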